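import Pool.Agent.N261.JS.Glob

/-!
# Analytic subsets: unions, and the surfaces `Σ_±`
-/

set_option autoImplicit false

open Complex Filter Topology Set

namespace Pool.Agent.N261.JS

lemma union_ana {Z W : Set (ℂ × ℂ × ℂ)} (hZ : IsAna Z) (hW : IsAna W) : IsAna (Z ∪ W) := by
  refine ⟨union_subset hZ.1 hW.1, ?_⟩
  intro a ha
  obtain ⟨V1, o1, m1, s1, k1, g, hg, e1⟩ := hZ.2 a ha
  obtain ⟨V2, o2, m2, s2, k2, h, hh, e2⟩ := hW.2 a ha
  refine ⟨V1 ∩ V2, o1.inter o2, ⟨m1, m2⟩, inter_subset_left.trans s1, k1 * k2,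
    fun i q => g (finProdFinEquiv.symm i).1 q * h (finProdFinEquiv.symm i).2 q, ?_, ?_⟩
  · intro i q hq
    exact (hg _ q hq.1).mul (hh _ q hq.2)
  · ext q
    constructor
    · rintro ⟨hq | hq, hq1, hq2⟩
      · refine ⟨⟨hq1, hq2⟩, fun i => ?_⟩
        have : q ∈ {q ∈ V1 | ∀ i, g i q = 0} := by rw [← e1]; exact ⟨hq, hq1⟩
        show g _ q * h _ q = 0
        rw [this.2, zero_mul]
      · refine ⟨⟨hq1, hq2⟩, fun i => ?_⟩
        have : q ∈ {q ∈ V2 | ∀ i, h i q = 0} := by rw [← e2]; exact ⟨hq, hq2⟩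
        show g _ q * h _ q = 0
        rw [this.2, mul_zero]
    · rintro ⟨⟨hq1, hq2⟩, hq⟩
      refine ⟨?_, hq1, hq2⟩
      by_cases hall : ∀ i, g i q = 0
      · left
        have : q ∈ Z ∩ V1 := by rw [e1]; exact ⟨hq1, hall⟩
        exact this.1
      · right
        push Not at hall
        obtain ⟨i, hi⟩ := hall
        have : q ∈ W ∩ V2 := by
          rw [e2]
          refine ⟨hq2, fun j => ?_⟩
          have h1 := hq (finProdFinEquiv (i, j))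
          simp only [Equiv.symm_apply_apply] at h1
          exact (mul_eq_zero.1 h1).resolve_left hi
        exact this.1

lemma isOpen_UU : IsOpen UU := by
  have h : Continuous fun p : ℂ × ℂ × ℂ => p.2.2 := by fun_prop
  exact isOpen_ne.preimage h

lemma QQ_analytic (q : ℂ × ℂ × ℂ) :
    AnalyticAt ℂ (fun q : ℂ × ℂ × ℂ => QQ3 q.1 q.2.1 q.2.2) q := by
  have a1 : AnalyticAt ℂ (fun q : ℂ × ℂ × ℂ => q.1) q := analyticAt_fst
  have a2 : AnalyticAt ℂ (fun q : ℂ × ℂ × ℂ => q.2.1) q :=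
    AnalyticAt.fun_comp analyticAt_fst analyticAt_snd
  have a3 : AnalyticAt ℂ (fun q : ℂ × ℂ × ℂ => q.2.2) q :=
    AnalyticAt.fun_comp analyticAt_snd analyticAt_snd
  exact ((analyticAt_const.mul a3).mul a1).prod ((a3.neg.mul a2).prod a3)

lemma sig_eq (hric : S_RIC) {e : ℂ} (he : e ^ 2 = -1) :
    Sig e = {p | p ∈ UU ∧ GG e (QQ3 p.1 p.2.1 p.2.2) = 0} := by
  ext p
  obtain ⟨B, A, r⟩ := p
  constructor
  · intro h
    have hr : r ≠ 0 := h.1
    exact ⟨h.1, (fixes_iff hr he).1 ((hric B A r hr e).1 h)⟩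
  · rintro ⟨h1, h2⟩
    have hr : r ≠ 0 := h1
    exact (hric B A r hr e).2 ((fixes_iff hr he).2 h2)

lemma sig_ana (hric : S_RIC) {e : ℂ} (he : e ^ 2 = -1) : IsAna (Sig e) := by
  refine ⟨fun p hp => hp.1, fun a ha => ⟨UU, isOpen_UU, ha, subset_rfl, 1,
    fun _ p => GG e (QQ3 p.1 p.2.1 p.2.2), ?_, ?_⟩⟩
  · intro _ q _
    exact AnalyticAt.fun_comp (g := GG e) (GG_analytic e _) (QQ_analytic q)
  · rw [sig_eq hric he]
    ext q
    constructor
    · rintro ⟨h1, h2⟩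
      exact ⟨h2, fun _ => h1.2⟩
    · rintro ⟨h1, h2⟩
      exact ⟨⟨h1, h2 0⟩, h1⟩

/-- **Main theorem** from the parts. -/
theorem least (hric : S_RIC) (hfro : S_FRO) {θ : ℝ} {e : ℂ}
    (hθ : θ = Real.pi / 2 ∨ θ = -(Real.pi / 2)) (he : e = exp (θ * I)) (he2 : e ^ 2 = -1)
    {Z : Set (ℂ × ℂ × ℂ)} (hZ : IsAna Z) (hsub : Bdry (fun _ => True) θ ⊆ Z) : Sig e ⊆ Z := by
  intro p hp
  rw [sig_eq hric he2] at hp
  obtain ⟨B, A, r⟩ := p
  have hr : r ≠ 0 := hp.1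
  refine glob hZ he2 ?_ B A r hr hp.2
  intro B' A' r' hr' hG
  apply hsub
  apply hfro B' A' r' θ hr' hθ
  rw [← he]
  exact (fixes_iff (by exact_mod_cast hr'.ne') he2).2 hG

end Pool.Agent.N261.JS
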