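import Pool.Agent.N261.JS.Stm

/-!
# The Josephson model: comparison in `B` and rotation numbers (helper713)
-/

set_option autoImplicit false

open Complex Filter Topology Set

namespace Pool.Agent.N261.JS

theorem t_CMP : S_CMP := by
  intro B B' A r φ ψ hr hB hφ hψ h0
  set K : ℝ := B' - B with hK
  have hKpos : 0 < K := sub_pos.2 hB
  have hpi : 0 < 2 * Real.pi := by positivity
  have hd : ∀ t, HasDerivAt (fun t => ψ t - φ t)
      (2 * r * (-(Real.sin (ψ t) - Real.sin (φ t)) + K)) t := by
    intro t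
    have h : HasDerivAt (fun t => ψ t - φ t) _ t := HasDerivAt.fun_sub (hψ t) (hφ t)
    exact h.congr_deriv (by rw [hK]; ring)
  -- the difference is nonnegative
  have hnn : ∀ t ∈ Icc (0 : ℝ) (2 * Real.pi), 0 ≤ ψ t - φ t := by
    intro t ht
    have h := image_le_of_deriv_right_lt_deriv_boundary (f := fun t => -(ψ t - φ t))
      (f' := fun t => -(2 * r * (-(Real.sin (ψ t) - Real.sin (φ t)) + K)))
      (a := 0) (b := 2 * Real.pi) (B := fun _ => 0) (B' := fun _ => 0)
      (fun x _ => (hd x).neg.continuousAt.continuousWithinAt)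
      (fun x _ => (hd x).neg.hasDerivWithinAt)
      (by simp [h0]) (fun x => hasDerivAt_const x 0) (by
        intro x _ hx
        have h1 : ψ x = φ x := by
          have : -(ψ x - φ x) = 0 := hx
          linarith
        show -(2 * r * (-(Real.sin (ψ x) - Real.sin (φ x)) + K)) < 0
        rw [h1]
        have : 0 < r * K := mul_pos hr hKpos
        nlinarith) ht
    have h' : -(ψ t - φ t) ≤ 0 := h
    linarith
  -- the weighted difference is monotone
  have hg : ∀ t, HasDerivAt (fun t => Real.exp (2 * r * t) * (ψ t - φ t - K))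
      (Real.exp (2 * r * t) * (2 * r) * (ψ t - φ t - K) + Real.exp (2 * r * t) *
        (2 * r * (-(Real.sin (ψ t) - Real.sin (φ t)) + K))) t := by
    intro t
    have h1 : HasDerivAt (fun t => Real.exp (2 * r * t)) (Real.exp (2 * r * t) * (2 * r)) t := by
      have h2 : HasDerivAt (fun t : ℝ => 2 * r * t) (2 * r) t := by
        simpa using (hasDerivAt_id t).const_mul (2 * r)
      exact h2.exp
    exact h1.mul ((hd t).sub_const K)
  have hmono : MonotoneOn (fun t => Real.exp (2 * r * t) * (ψ t - φ t - K))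
      (Icc 0 (2 * Real.pi)) := by
    apply monotoneOn_of_deriv_nonneg (convex_Icc _ _)
    · exact fun x _ => (hg x).continuousAt.continuousWithinAt
    · exact fun x _ => (hg x).differentiableAt.differentiableWithinAt
    · intro x hx
      rw [interior_Icc] at hx
      rw [(hg x).deriv]
      have h1 := hnn x (Ioo_subset_Icc_self hx)
      have h2 : Real.sin (ψ x) - Real.sin (φ x) ≤ ψ x - φ x := by
        have h3 : |Real.sin (ψ x) - Real.sin (φ x)| ≤ |ψ x - φ x| := by
          have := Real.lipschitzWith_sin.dist_le_mul (ψ x) (φ x)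
          simpa [Real.dist_eq] using this
        calc Real.sin (ψ x) - Real.sin (φ x) ≤ |Real.sin (ψ x) - Real.sin (φ x)| := le_abs_self _
          _ ≤ |ψ x - φ x| := h3
          _ = ψ x - φ x := abs_of_nonneg h1
      have h4 : Real.exp (2 * r * x) * (2 * r) * (ψ x - φ x - K) + Real.exp (2 * r * x) *
          (2 * r * (-(Real.sin (ψ x) - Real.sin (φ x)) + K)) =
          Real.exp (2 * r * x) * (2 * r) * ((ψ x - φ x) - (Real.sin (ψ x) - Real.sin (φ x))) := by
        ring
      rw [h4]
      have : 0 ≤ (ψ x - φ x) - (Real.sin (ψ x) - Real.sin (φ x)) := by linarith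
      positivity
  have hfin := hmono (left_mem_Icc.2 hpi.le) (right_mem_Icc.2 hpi.le) hpi.le
  simp only [mul_zero, Real.exp_zero, one_mul] at hfin
  rw [h0, sub_self, zero_sub] at hfin
  have he : 2 * r * (2 * Real.pi) = 4 * Real.pi * r := by ring
  rw [he] at hfin
  have hinv : Real.exp (-(4 * Real.pi * r)) * Real.exp (4 * Real.pi * r) = 1 := by
    rw [← Real.exp_add]; simp
  have hpos : 0 < Real.exp (-(4 * Real.pi * r)) := Real.exp_pos _
  have h5 := mul_le_mul_of_nonneg_left hfin hpos.le
  rw [← mul_assoc, hinv, one_mul] at h5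
  nlinarith

lemma isPhase_shift {B A r : ℝ} {φ : ℝ → ℝ} (h : IsPhase B A r φ) (n : ℕ) (k : ℤ) :
    IsPhase B A r (fun t => φ (t + 2 * Real.pi * n) - 2 * Real.pi * k) := by
  intro t
  have h1 := (h (t + 2 * Real.pi * n)).comp_add_const t (2 * Real.pi * n)
  have h2 := h1.sub_const (2 * Real.pi * k)
  have e1 : Real.sin (φ (t + 2 * Real.pi * n) - 2 * Real.pi * k) =
      Real.sin (φ (t + 2 * Real.pi * n)) := by
    have := Real.sin_sub_int_mul_two_pi (φ (t + 2 * Real.pi * n)) k
    rw [← this]; congr 1; ring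
  have e2 : Real.cos (t + 2 * Real.pi * n) = Real.cos t := by
    have := Real.cos_add_nat_mul_two_pi t n
    rw [← this]; congr 1; ring
  exact h2.congr_deriv (by rw [e1, e2])

lemma isPhase_neg {B A r : ℝ} {φ : ℝ → ℝ} (h : IsPhase B A r φ) :
    IsPhase (-B) (-A) r (fun t => -φ t) := by
  intro t
  have h1 : HasDerivAt (fun t => -φ t) _ t := HasDerivAt.fun_neg (h t)
  exact h1.congr_deriv (by rw [Real.sin_neg]; ring)

lemma rot_lower (B A r c ρ : ℝ) (φ : ℝ → ℝ)
    (hc : ∀ ψ : ℝ → ℝ, IsPhase B A r ψ → ψ 0 + c ≤ ψ (2 * Real.pi)) (hφ : IsPhase B A r φ)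
    (hρ : Tendsto (fun τ => φ τ / τ) atTop (𝓝 ρ)) : c ≤ 2 * Real.pi * ρ := by
  have hpi : 0 < 2 * Real.pi := by positivity
  have h1 : ∀ n : ℕ, φ 0 + n * c ≤ φ (2 * Real.pi * n) := by
    intro n
    induction n with
    | zero => simp
    | succ n ih =>
      have h2 := hc _ (isPhase_shift hφ n 0)
      simp only [Int.cast_zero, mul_zero, sub_zero, zero_add] at h2
      have h3 : 2 * Real.pi + 2 * Real.pi * (n : ℝ) = 2 * Real.pi * ((n + 1 : ℕ) : ℝ) := by
        push_cast; ring
      rw [h3] at h2
      push_cast at h2 ⊢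
      linarith
  have h2 : Tendsto (fun n : ℕ => 2 * Real.pi * (n : ℝ)) atTop atTop :=
    tendsto_natCast_atTop_atTop.const_mul_atTop hpi
  have h3 := hρ.comp h2
  have h4 : Tendsto (fun n : ℕ => φ 0 / (2 * Real.pi * (n : ℝ)) + c / (2 * Real.pi)) atTop
      (𝓝 (0 + c / (2 * Real.pi))) :=
    ((tendsto_const_nhds (x := φ 0)).div_atTop h2).add tendsto_const_nhds
  rw [zero_add] at h4
  have h5 : c / (2 * Real.pi) ≤ ρ := by
    refine le_of_tendsto_of_tendsto h4 h3 ?_
    filter_upwards [eventually_gt_atTop 0] with n hn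
    have hn' : (0 : ℝ) < n := by exact_mod_cast hn
    have h6 : 0 < 2 * Real.pi * (n : ℝ) := by positivity
    show φ 0 / (2 * Real.pi * (n : ℝ)) + c / (2 * Real.pi) ≤
      φ (2 * Real.pi * n) / (2 * Real.pi * n)
    rw [le_div_iff₀ h6]
    have h7 : (φ 0 / (2 * Real.pi * (n : ℝ)) + c / (2 * Real.pi)) * (2 * Real.pi * n) =
        φ 0 + n * c := by
      field_simp
    rw [h7]
    exact h1 n
  rw [div_le_iff₀ hpi] at h5
  linarith

theorem t_ROT (h : S_PEX) : S_ROT := by
  obtain ⟨-, huniq, -⟩ := h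
  refine ⟨?_, ?_, ?_⟩
  · intro B A r φ s hr hφ hs
    have hpi : 0 < 2 * Real.pi := by positivity
    have h1 : (fun t => φ (t + 2 * Real.pi * (1 : ℕ)) - 2 * Real.pi * s) = φ := by
      apply huniq B A r _ _ 0 hr (isPhase_shift hφ 1 s) hφ
      simp only [Nat.cast_one, mul_one, zero_add]
      rw [hs]; ring
    have h2 : ∀ t, φ (t + 2 * Real.pi) = φ t + 2 * Real.pi * s := by
      intro t
      have := congrFun h1 t
      simp only [Nat.cast_one, mul_one] at this
      linarith
    have hcont : Continuous φ := continuous_iff_continuousAt.2 fun t => (hφ t).continuousAt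
    have hper : Function.Periodic (fun t => φ t - s * t) (2 * Real.pi) := by
      intro t
      show φ (t + 2 * Real.pi) - s * (t + 2 * Real.pi) = φ t - s * t
      rw [h2]; ring
    have hbd := hper.isBounded_of_continuous hpi.ne'
      (hcont.sub (continuous_const.mul continuous_id))
    obtain ⟨C, hC⟩ := hbd.exists_norm_le
    have hC' : ∀ t, |φ t - s * t| ≤ C := fun t => hC _ ⟨t, rfl⟩
    have h3 : Tendsto (fun t : ℝ => (φ t - s * t) / t) atTop (𝓝 0) := by
      have h4 : Tendsto (fun t : ℝ => C / t) atTop (𝓝 0) := tendsto_const_nhds.div_atTop tendsto_id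
      refine squeeze_zero_norm' ?_ h4
      filter_upwards [eventually_gt_atTop 0] with t ht
      rw [norm_div, Real.norm_eq_abs, Real.norm_eq_abs, abs_of_pos ht]
      exact div_le_div_of_nonneg_right (hC' t) ht.le
    have h5 : Tendsto (fun t : ℝ => (φ t - s * t) / t + s) atTop (𝓝 (0 + s)) :=
      h3.add tendsto_const_nhds
    rw [zero_add] at h5
    refine h5.congr' ?_
    filter_upwards [eventually_gt_atTop 0] with t ht
    field_simp
    ring
  · intro B A r c ρ φ _ hc hφ hρ
    exact rot_lower B A r c ρ φ hc hφ hρ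
  · intro B A r c ρ φ _ hc hφ hρ
    have h1 := rot_lower (-B) (-A) r (-c) (-ρ) (fun t => -φ t) (by
      intro ψ hψ
      have h2 := isPhase_neg hψ
      rw [neg_neg, neg_neg] at h2
      have h3 := hc _ h2
      linarith) (isPhase_neg hφ) (by
      have := hρ.neg
      refine this.congr fun t => ?_
      rw [neg_div])
    linarith

end Pool.Agent.N261.JS
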