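import Mathlib

/-!
# The Josephson model: definitions

Parameters `(B, A, r) ∈ ℂ³`, `r ≠ 0`; the Riccati equation
`Φ' = 2 i r (B + A cos τ) Φ - r (Φ² - 1)` on the Riemann sphere, and the real model
`dφ/dτ = 2 r (- sin φ + B + A cos τ)`, `r = 1/(2ω)`.
-/

open Complex Filter Topology Set

namespace Pool.Agent.N261.JS

/-- The point `1/g` of the Riemann sphere. -/
noncomputable def sInv (g : ℂ) : OnePoint ℂ := if g = 0 then OnePoint.infty else ((g⁻¹ : ℂ) : OnePoint ℂ)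

/-- `Φ : ℝ → ℂ ∪ {∞}` solves the Riccati equation with parameters `(B, A, r)`: near every time
either `Φ = f` is finite and solves the equation, or `Φ = 1/g` where `g` is finite and solves the
equation for `1/Φ`, namely `g' = - 2 i r (B + A cos τ) g - r (g² - 1)`. -/
def IsRiccati (B A r : ℂ) (Φ : ℝ → OnePoint ℂ) : Prop :=
  ∀ τ₀ : ℝ,
    (∃ f : ℝ → ℂ, ∀ᶠ τ : ℝ in 𝓝 τ₀, Φ τ = (f τ : OnePoint ℂ) ∧
      HasDerivAt f (2 * I * r * (B + A * Complex.cos τ) * f τ - r * (f τ ^ 2 - 1)) τ) ∨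
    (∃ g : ℝ → ℂ, ∀ᶠ τ : ℝ in 𝓝 τ₀, Φ τ = sInv (g τ) ∧
      HasDerivAt g (-(2 * I * r * (B + A * Complex.cos τ)) * g τ - r * (g τ ^ 2 - 1)) τ)

/-- The parameter domain `U`. -/
def UU : Set (ℂ × ℂ × ℂ) := {p | p.2.2 ≠ 0}

/-- The parameters for which the monodromy of the Riccati equation (continuation of the solutions
from `τ = 0` to `τ = 2π`) fixes the point `e`. -/
def Sig (e : ℂ) : Set (ℂ × ℂ × ℂ) :=
  {p | p ∈ UU ∧ ∃ Φ : ℝ → OnePoint ℂ, IsRiccati p.1 p.2.1 p.2.2 Φ ∧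
    Φ 0 = (e : OnePoint ℂ) ∧ Φ (2 * Real.pi) = (e : OnePoint ℂ)}

/-- Complex analytic subsets of `U`. -/
def IsAna (Z : Set (ℂ × ℂ × ℂ)) : Prop :=
  Z ⊆ UU ∧ ∀ a ∈ UU, ∃ V : Set (ℂ × ℂ × ℂ), IsOpen V ∧ a ∈ V ∧ V ⊆ UU ∧
    ∃ (k : ℕ) (g : Fin k → ℂ × ℂ × ℂ → ℂ), (∀ i, AnalyticOnNhd ℂ (g i) V) ∧
      Z ∩ V = {q ∈ V | ∀ i, g i q = 0}

/-- Solutions of the real equation `dφ/dτ = 2 r (- sin φ + B + A cos τ)`. -/
def IsPhase (B A r : ℝ) (φ : ℝ → ℝ) : Prop :=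
  ∀ τ : ℝ, HasDerivAt φ (2 * r * (-Real.sin (φ τ) + B + A * Real.cos τ)) τ

/-- The phase-lock area `L_s`, `s ∈ ℤ`, for the frequency `ω = 1/(2r)`: the rotation number is `s`. -/
def Lock (r : ℝ) (s : ℤ) : Set (ℝ × ℝ) :=
  {p | ∃ φ : ℝ → ℝ, IsPhase p.1 p.2 r φ ∧ Tendsto (fun τ => φ τ / τ) atTop (𝓝 (s : ℝ))}

/-- The points of the boundaries of the phase-lock areas `L_s` with `P s` (all `ω > 0`), at which
the time-`2π` map fixes the point `θ` of the circle `ℝ/2πℤ`, as a subset of `ℂ³`. -/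
def Bdry (P : ℤ → Prop) (θ : ℝ) : Set (ℂ × ℂ × ℂ) :=
  {q | ∃ B A r : ℝ, q = ((B : ℂ), (A : ℂ), (r : ℂ)) ∧ 0 < r ∧
    (∃ s : ℤ, P s ∧ (B, A) ∈ frontier (Lock r s)) ∧
    ∃ φ : ℝ → ℝ, IsPhase B A r φ ∧ φ 0 = θ ∧ ∃ k : ℤ, φ (2 * Real.pi) = θ + 2 * Real.pi * k}

/-! ### The linear system -/

/-- `X' = i r (B + A cos τ) X + r Y`, `Y' = r X - i r (B + A cos τ) Y`; then `Φ = X/Y` solves the
Riccati equation. -/
def IsLin (B A r : ℂ) (X Y : ℝ → ℂ) : Prop :=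
  (∀ τ : ℝ, HasDerivAt X (I * r * (B + A * Complex.cos τ) * X τ + r * Y τ) τ) ∧
  (∀ τ : ℝ, HasDerivAt Y (r * X τ - I * r * (B + A * Complex.cos τ) * Y τ) τ)

/-- The monodromy of the linear system maps the line of `(e, 1)` to itself. -/
def Fixes (B A r e : ℂ) : Prop :=
  ∃ X Y : ℝ → ℂ, IsLin B A r X Y ∧ X 0 = e ∧ Y 0 = 1 ∧
    X (2 * Real.pi) = e * Y (2 * Real.pi)

end Pool.Agent.N261.JS
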