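import Pool.Agent.N261.JS.Lin

/-!
# Real parameters: fixed points `± π/2` and the boundaries of the phase-lock areas
-/

set_option autoImplicit false

open Complex Filter Topology Set

namespace Pool.Agent.N261.JS

lemma isLin_zero (B A r : ℂ) : IsLin B A r 0 0 := by
  constructor <;> intro τ <;> simpa using hasDerivAt_const τ (0 : ℂ)

/-- the derivative of `exp (i φ)` -/
lemma exp_phase {B A r : ℝ} {φ : ℝ → ℝ} (h : IsPhase B A r φ) (τ : ℝ) :
    HasDerivAt (fun τ => exp (I * φ τ))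
      (2 * I * r * (B + A * Complex.cos τ) * exp (I * φ τ) - r * (exp (I * φ τ) ^ 2 - 1)) τ := by
  have h1 : HasDerivAt (fun τ => I * ((φ τ : ℝ) : ℂ))
      (I * ((2 * r * (-Real.sin (φ τ) + B + A * Real.cos τ) : ℝ) : ℂ)) τ :=
    ((h τ).ofReal_comp).const_mul I
  refine h1.cexp.congr_deriv ?_
  have hs : ((Real.sin (φ τ) : ℝ) : ℂ) = (exp (-φ τ * I) - exp (φ τ * I)) * I / 2 := by
    rw [Complex.ofReal_sin, Complex.sin]
  have h2 : exp (-(φ τ : ℂ) * I) * exp (I * φ τ) = 1 := by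
    rw [← exp_add]; ring_nf; simp
  have h3 : exp ((φ τ : ℂ) * I) = exp (I * φ τ) := by rw [mul_comm]
  push_cast
  rw [← Complex.ofReal_sin, hs, h3]
  linear_combination (r : ℂ) * h2 + ((r : ℂ) * exp (I * φ τ) ^ 2 -
    (r : ℂ) * exp (-(φ τ : ℂ) * I) * exp (I * φ τ)) * I_sq

lemma lin_phase {B A r : ℝ} {φ : ℝ → ℝ} {X Y : ℝ → ℂ} (h : IsPhase B A r φ)
    (hL : IsLin (B : ℂ) (A : ℂ) (r : ℂ) X Y) (h0 : X 0 = exp (I * φ 0) * Y 0) (τ : ℝ) :
    X τ = exp (I * φ τ) * Y τ := by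
  set a : ℝ → ℂ := fun τ => I * r * (B + A * Complex.cos τ) - r * exp (I * φ τ) with ha
  set W : ℝ → ℂ := fun τ => X τ - exp (I * φ τ) * Y τ with hW
  have hd : ∀ τ, HasDerivAt W (a τ * W τ) τ := by
    intro τ
    refine ((hL.1 τ).sub ((exp_phase h τ).mul (hL.2 τ))).congr_deriv ?_
    simp only [ha, hW]
    ring
  have hcos : ∀ τ : ℝ, ‖Complex.cos (τ : ℂ)‖ ≤ 1 := fun τ => by
    rw [← Complex.ofReal_cos, Complex.norm_real]; exact Real.abs_cos_le_one τ
  set K : NNReal := ⟨|r| * (|B| + |A|) + |r|, by positivity⟩ with hK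
  have hb : ∀ τ : ℝ, ‖a τ‖ ≤ K := by
    intro τ
    have hKc : (K : ℝ) = |r| * (|B| + |A|) + |r| := rfl
    rw [hKc]
    refine (norm_sub_le _ _).trans (add_le_add ?_ ?_)
    · rw [norm_mul, norm_mul, Complex.norm_I, one_mul, Complex.norm_real, Real.norm_eq_abs]
      apply mul_le_mul_of_nonneg_left _ (abs_nonneg _)
      refine (norm_add_le _ _).trans ?_
      rw [norm_mul, Complex.norm_real, Complex.norm_real, Real.norm_eq_abs, Real.norm_eq_abs]
      have := mul_le_mul_of_nonneg_left (hcos τ) (abs_nonneg A)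
      linarith
    · rw [norm_mul, Complex.norm_real, Real.norm_eq_abs, mul_comm I, Complex.norm_exp_ofReal_mul_I,
        mul_one]
  have key := ODE_solution_unique_univ (v := fun τ w => a τ * w) (K := K) (s := fun _ => univ)
    (f := W) (g := fun _ => (0 : ℂ)) (t₀ := 0)
    (fun τ => by
      apply LipschitzWith.lipschitzOnWith
      apply LipschitzWith.of_dist_le_mul
      intro z z'
      rw [dist_eq_norm, dist_eq_norm, ← mul_sub, norm_mul]
      exact mul_le_mul_of_nonneg_right (hb τ) (norm_nonneg _))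
    (fun τ => ⟨hd τ, mem_univ _⟩)
    (fun τ => ⟨by simpa using hasDerivAt_const τ (0 : ℂ), mem_univ _⟩)
    (by simp [hW, h0])
  have := congrFun key τ
  simp only [hW] at this
  exact sub_eq_zero.1 this

theorem t_FRO (hp : S_PEX) (hc : S_CMP) (hro : S_ROT) (hs : S_SGN) : S_FRO := by
  intro B A r θ hr hθ hfix
  obtain ⟨X, Y, hL, hX0, hY0, hX1⟩ := hfix
  obtain ⟨φ, hφ, hφ0⟩ := hp.1 B A r θ hr
  have hlp := lin_phase hφ hL (by rw [hX0, hY0, hφ0, mul_one, mul_comm]) (2 * Real.pi)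
  have hY1 : Y (2 * Real.pi) ≠ 0 := by
    intro h
    have hX : X (2 * Real.pi) = 0 := by rw [hX1, h, mul_zero]
    have := (IsLin.unique hL (isLin_zero _ _ _) (t₀ := 2 * Real.pi) (by rw [hX]; rfl)
      (by rw [h]; rfl)).2
    rw [this] at hY0
    simp at hY0
  have hexp : exp (I * φ (2 * Real.pi)) = exp (θ * I) := by
    rw [hX1] at hlp
    exact (mul_right_cancel₀ hY1 hlp).symm
  obtain ⟨k, hk⟩ := Complex.exp_eq_exp_iff_exists_int.1 hexp
  have hk' : φ (2 * Real.pi) = θ + 2 * Real.pi * k := by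
    have h1 : ((φ (2 * Real.pi) : ℝ) : ℂ) = ((θ + 2 * Real.pi * k : ℝ) : ℂ) := by
      have h2 : I * (((φ (2 * Real.pi) : ℝ) : ℂ) - ((θ + 2 * Real.pi * k : ℝ) : ℂ)) = 0 := by
        push_cast
        linear_combination hk
      exact sub_eq_zero.1 ((mul_eq_zero.1 h2).resolve_left I_ne_zero)
    exact_mod_cast h1
  refine ⟨B, A, r, rfl, hr, ⟨k, trivial, ?_⟩, φ, hφ, hφ0, k, hk'⟩
  have hmem : (B, A) ∈ Lock r k := ⟨φ, hφ, hro.1 B A r φ k hr hφ (by rw [hφ0]; exact hk')⟩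
  refine ⟨subset_closure hmem, ?_⟩
  intro hint
  have hnhds : ∀ᶠ B' in 𝓝 B, (B', A) ∈ Lock r k := by
    have h1 : ∀ᶠ q in 𝓝 (B, A), q ∈ Lock r k := mem_interior_iff_mem_nhds.1 hint
    have h2 : Tendsto (fun B' : ℝ => (B', A)) (𝓝 B) (𝓝 (B, A)) := by
      have : Continuous fun B' : ℝ => (B', A) := by fun_prop
      exact this.tendsto B
    exact h2.eventually h1
  have hη : 0 < 1 - Real.exp (-(4 * Real.pi * r)) := by
    have h1 : Real.exp (-(4 * Real.pi * r)) < 1 := by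
      rw [Real.exp_lt_one_iff]
      have := Real.pi_pos
      have : 0 < 4 * Real.pi * r := by positivity
      linarith
    linarith
  rcases hs B A r θ k φ hr hθ hφ hφ0 hk' with hge | hle
  · obtain ⟨ε, hε, hball⟩ := Metric.eventually_nhds_iff.1 hnhds
    obtain ⟨ψ, hψ, hψt⟩ := hball (y := B + ε / 2) (by
      rw [Real.dist_eq, show B + ε / 2 - B = ε / 2 by ring, abs_of_pos (by positivity)]; linarith)
    have h1 := hro.2.1 (B + ε / 2) A r (2 * Real.pi * k + (ε / 2) * (1 - Real.exp (-(4 * Real.pi * r))))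
      (k : ℝ) ψ hr (by
        intro χ hχ
        obtain ⟨φ', hφ', hφ0'⟩ := hp.1 B A r (χ 0) hr
        have h2 := hc B (B + ε / 2) A r φ' χ hr (by linarith) hφ' hχ hφ0'
        have h3 := hge φ' hφ'
        rw [hφ0'] at h3
        have h4 : B + ε / 2 - B = ε / 2 := by ring
        rw [h4] at h2
        linarith) hψ hψt
    have h5 : 0 < (ε / 2) * (1 - Real.exp (-(4 * Real.pi * r))) := by positivity
    linarith
  · obtain ⟨ε, hε, hball⟩ := Metric.eventually_nhds_iff.1 hnhds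
    obtain ⟨ψ, hψ, hψt⟩ := hball (y := B - ε / 2) (by
      rw [Real.dist_eq, show B - ε / 2 - B = -(ε / 2) by ring, abs_neg, abs_of_pos (by positivity)]
      linarith)
    have h1 := hro.2.2 (B - ε / 2) A r (2 * Real.pi * k - (ε / 2) * (1 - Real.exp (-(4 * Real.pi * r))))
      (k : ℝ) ψ hr (by
        intro χ hχ
        obtain ⟨φ', hφ', hφ0'⟩ := hp.1 B A r (χ 0) hr
        have h2 := hc (B - ε / 2) B A r χ φ' hr (by linarith) hχ hφ' hφ0'.symm
        have h3 := hle φ' hφ'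
        rw [hφ0'] at h3
        have h4 : B - (B - ε / 2) = ε / 2 := by ring
        rw [h4] at h2
        linarith) hψ hψt
    have h5 : 0 < (ε / 2) * (1 - Real.exp (-(4 * Real.pi * r))) := by positivity
    linarith

/-- Real boundary points belong to `Σ_±`. -/
lemma bdry_sub (P : ℤ → Prop) (θ : ℝ) : Bdry P θ ⊆ Sig (exp (θ * I)) := by
  rintro q ⟨B, A, r, rfl, hr, -, φ, hφ, h0, k, hk⟩
  refine ⟨by show ((r : ℝ) : ℂ) ≠ 0; exact_mod_cast hr.ne', fun τ => ((exp (I * φ τ) : ℂ) : OnePoint ℂ),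
    ?_, ?_, ?_⟩
  · intro τ₀
    left
    exact ⟨fun τ => exp (I * φ τ), Filter.Eventually.of_forall fun τ => ⟨rfl, exp_phase hφ τ⟩⟩
  · simp only [h0]
    rw [mul_comm]
  · simp only [hk]
    congr 1
    rw [Complex.exp_eq_exp_iff_exists_int]
    exact ⟨k, by push_cast; ring⟩

end Pool.Agent.N261.JS
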