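import Pool.Agent.N261.JS.Lin

/-!
# The global continuation argument for the surfaces `Σ_±`
-/

set_option autoImplicit false

open Complex Filter Topology Set Metric

namespace Pool.Agent.N261.JS

open Pool.Agent.N261.HE

lemma GG_ne_of_FF {e : ℂ} (he : e ^ 2 = -1) {q : ℂ × ℂ × ℂ} (h : FF (PP3 q) ≠ 0) :
    GG e q ≠ 0 := by
  intro h1
  apply h
  rw [FF_prod he, h1, zero_mul]

theorem glob {Z : Set (ℂ × ℂ × ℂ)} (hZ : IsAna Z) {e : ℂ} (he : e ^ 2 = -1)
    (hreal : ∀ B A r : ℝ, 0 < r → GG e (QQ3 B A r) = 0 → ((B : ℂ), (A : ℂ), (r : ℂ)) ∈ Z)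
    (B₁ A₁ r₁ : ℂ) (hr₁ : r₁ ≠ 0) (hq : GG e (QQ3 B₁ A₁ r₁) = 0) : (B₁, A₁, r₁) ∈ Z := by
  set w₁ : ℂ := Complex.log r₁ with hw₁
  set u : ℝ := w₁.re with hu
  set v : ℝ := w₁.im with hv
  set γ : ℝ := A₁.im with hγ
  set δ : ℝ := -A₁.re with hδ
  set AA : ℂ → ℂ := fun s => γ * s + δ * s ^ 2 with hAA
  set rr : ℂ → ℂ := fun s => exp (v * s - u * s ^ 2) with hrr
  set mu : ℂ → ℂ := fun s => -rr s * AA s with hmu
  have hrr0 : ∀ s, rr s ≠ 0 := fun s => exp_ne_zero _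
  have hrrI : rr I = r₁ := by
    have h1 : (v : ℂ) * I - u * I ^ 2 = w₁ := by
      rw [I_sq]
      conv_rhs => rw [← Complex.re_add_im w₁]
      rw [hu, hv]; ring
    show exp ((v : ℂ) * I - u * I ^ 2) = r₁
    rw [h1, hw₁, Complex.exp_log hr₁]
  have hAI : AA I = A₁ := by
    rw [hAA]; simp only [I_sq, hδ, hγ]
    conv_rhs => rw [← Complex.re_add_im A₁]
    push_cast; ring
  set G0 : ℂ × ℂ → ℂ × ℂ × ℂ := fun z => (z.2, mu z.1, rr z.1) with hG0
  set Γ : ℂ × ℂ → ℂ × ℂ × ℂ := fun z => (z.2 * (2 * rr z.1)⁻¹, AA z.1, rr z.1) with hΓ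
  have hG0Γ : ∀ z, G0 z = QQ3 (Γ z).1 (Γ z).2.1 (Γ z).2.2 := by
    intro z
    simp only [hG0, hΓ, QQ3, hmu]
    have := hrr0 z.1
    refine Prod.ext ?_ rfl
    simp only
    field_simp
  have a1 : ∀ z : ℂ × ℂ, AnalyticAt ℂ (fun z : ℂ × ℂ => z.1) z := fun z => analyticAt_fst
  have a2 : ∀ z : ℂ × ℂ, AnalyticAt ℂ (fun z : ℂ × ℂ => z.2) z := fun z => analyticAt_snd
  have brr : ∀ z : ℂ × ℂ, AnalyticAt ℂ (fun z : ℂ × ℂ => rr z.1) z := fun z =>
    AnalyticAt.cexp ((analyticAt_const.mul (a1 z)).sub (analyticAt_const.mul ((a1 z).pow 2)))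
  have bAA : ∀ z : ℂ × ℂ, AnalyticAt ℂ (fun z : ℂ × ℂ => AA z.1) z := fun z =>
    (analyticAt_const.mul (a1 z)).add (analyticAt_const.mul ((a1 z).pow 2))
  have bmu : ∀ z : ℂ × ℂ, AnalyticAt ℂ (fun z : ℂ × ℂ => mu z.1) z := fun z =>
    (brr z).neg.mul (bAA z)
  have hG0a : ∀ z, AnalyticAt ℂ G0 z := fun z => (a2 z).prod ((bmu z).prod (brr z))
  have hΓa : ∀ z, AnalyticAt ℂ Γ z := by
    intro z
    have h1 : AnalyticAt ℂ (fun z : ℂ × ℂ => z.2 * (2 * rr z.1)⁻¹) z :=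
      (a2 z).mul ((analyticAt_const.mul (brr z)).inv (mul_ne_zero two_ne_zero (hrr0 _)))
    exact h1.prod ((bAA z).prod (brr z))
  have hΓc : ∀ z, ContinuousAt Γ z := fun z => (hΓa z).continuousAt
  have hΓU : ∀ z, Γ z ∈ UU := fun z => hrr0 z.1
  set f : ℂ × ℂ → ℂ := fun z => GG e (G0 z) with hf
  have hfa : ∀ z, AnalyticAt ℂ f z := fun z => (GG_analytic e (G0 z)).comp (hG0a z)
  -- bounds
  have hmuc : Continuous mu := by
    rw [hmu, hrr, hAA]; fun_prop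
  have hrrc : Continuous rr := by
    rw [hrr]; fun_prop
  obtain ⟨m', hm'⟩ := (isCompact_closedBall (0 : ℂ) 2).exists_bound_of_continuousOn
    hmuc.continuousOn
  obtain ⟨k', hk'⟩ := (isCompact_closedBall (0 : ℂ) 2).exists_bound_of_continuousOn
    (hrrc.pow 2).continuousOn
  set m : ℝ := |m'| with hm
  set k : ℝ := |k'| with hk
  have hm0 : 0 ≤ m := by positivity
  have hk0 : 0 ≤ k := by positivity
  have hmub : ∀ s ∈ ball (0 : ℂ) 2, ‖mu s‖ ≤ m := fun s hs =>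
    (hm' s (ball_subset_closedBall hs)).trans (le_abs_self _)
  have hkb : ∀ s ∈ ball (0 : ℂ) 2, ‖(PP3 (G0 (s, (0 : ℂ)))).2.1 + (PP3 (G0 (s, (0 : ℂ)))).2.2 ^ 2‖ ≤ k := by
    intro s hs
    rw [PP3_kappa]
    exact (hk' s (ball_subset_closedBall hs)).trans (le_abs_self _)
  set Bd : ℝ := k + 2 + 2 * m + |(2 * r₁ * B₁).im| with hB
  have hB0 : 0 ≤ Bd := by positivity
  obtain ⟨L, hL⟩ := trace_asym Bd k m hB0 hk0 hm0
  obtain ⟨N, hN⟩ := exists_nat_gt (max L |(2 * r₁ * B₁).re|)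
  set X : ℝ := N + 1 / 2 with hX
  have hXL : L ≤ X := by
    have := (le_max_left L |(2 * r₁ * B₁).re|).trans hN.le; linarith
  have hXl : |(2 * r₁ * B₁).re| < X := by
    have := lt_of_le_of_lt (le_max_right L |(2 * r₁ * B₁).re|) hN; linarith
  have hX0 : 0 < X := by positivity
  set K : Set ℂ := Icc (-X) X ×ℂ Icc (-Bd) Bd with hK
  have hKc : IsCompact K := isCompact_Icc.reProdIm isCompact_Icc
  -- no zeros on the boundary
  have him : ∀ s ∈ ball (0 : ℂ) 2, ∀ l : ℂ, Bd ≤ |l.im| → f (s, l) ≠ 0 := by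
    intro s hs l hl
    apply GG_ne_of_FF he
    apply FF_ne_of_im (p := PP3 (G0 (s, l))) (hkb s hs) (hmub s hs)
    show k + 1 + 2 * m < |l.im|
    have := abs_nonneg (2 * r₁ * B₁).im
    linarith
  have hre : ∀ s ∈ ball (0 : ℂ) 2, ∀ l : ℂ, |l.im| ≤ Bd → |l.re| = X → f (s, l) ≠ 0 := by
    intro s hs l hl hlX
    apply GG_ne_of_FF he
    have htr := hL (PP3 (G0 (s, l))) hl (hkb s hs) (hmub s hs) (by
      show L ≤ |l.re|
      rw [hlX]; exact hXL)
    rcases (abs_eq hX0.le).1 hlX with h1 | h1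
    · exact FF_ne_of_half (PP3 (G0 (s, l))) N (by show l.re = _; rw [h1]; push_cast; ring) htr
    · exact FF_ne_of_half (PP3 (G0 (s, l))) (-N - 1)
        (by show l.re = _; rw [h1, hX]; push_cast; ring) htr
  have hint : ∀ s ∈ ball (0 : ℂ) 2, ∀ l ∈ K, f (s, l) = 0 → K ∈ 𝓝 l := by
    intro s hs l hl hfl
    have h1 : |l.re| ≤ X := abs_le.2 ⟨hl.1.1, hl.1.2⟩
    have h2 : |l.im| ≤ Bd := abs_le.2 ⟨hl.2.1, hl.2.2⟩
    have h3 : |l.im| < Bd := lt_of_not_ge fun h => him s hs l h hfl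
    have h4 : |l.re| < X := lt_of_le_of_ne h1 fun h => hre s hs l h2 h hfl
    have h5 := abs_lt.1 h3
    have h6 := abs_lt.1 h4
    have e1 : ∀ᶠ z : ℂ in 𝓝 l, z.re ∈ Icc (-X) X :=
      Complex.continuous_re.continuousAt.eventually (Icc_mem_nhds h6.1 h6.2)
    have e2 : ∀ᶠ z : ℂ in 𝓝 l, z.im ∈ Icc (-Bd) Bd :=
      Complex.continuous_im.continuousAt.eventually (Icc_mem_nhds h5.1 h5.2)
    filter_upwards [e1, e2] with z hz1 hz2 using ⟨hz1, hz2⟩
  set S : Set ℂ := {s | ∀ l ∈ K, f (s, l) = 0 → Γ (s, l) ∈ Z} with hS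
  -- Claim 1
  have claim1 : ∀ s₀ ∈ ball (0 : ℂ) 2, (∃ᶠ s in 𝓝[≠] s₀, s ∈ S) → ∀ᶠ s in 𝓝 s₀, s ∈ S := by
    intro s₀ hs₀ hfreq
    apply hKc.eventually_forall_of_forall_eventually (P := fun s l => f (s, l) = 0 → Γ (s, l) ∈ Z)
    intro l₀ hl₀
    by_cases hfz : f (s₀, l₀) = 0
    · have hKn := hint s₀ hs₀ l₀ hl₀ hfz
      obtain ⟨U, hUo, hUm, -, n, g, hg, hZU⟩ := hZ.2 (Γ (s₀, l₀)) (hΓU _)
      have hUn : ∀ᶠ z in 𝓝 (s₀, l₀), Γ z ∈ U := (hΓc (s₀, l₀)).eventually (hUo.mem_nhds hUm)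
      rw [nhds_prod_eq, Filter.eventually_prod_iff] at hUn
      obtain ⟨V1, hV1, V2, hV2, hV12⟩ := hUn
      have hgi : ∀ i, ∀ᶠ z in 𝓝 (s₀, l₀), f z = 0 → g i (Γ z) = 0 := by
        intro i
        apply local_lemma (hfa _) ((hg i _ hUm).comp (hΓa _)) _
          (W := {l | V2 l} ∩ K) (Filter.inter_mem hV2 hKn)
        · have hev : ∀ᶠ s in 𝓝[≠] s₀, V1 s := hV1.filter_mono nhdsWithin_le_nhds
          refine (hfreq.and_eventually hev).mono ?_
          rintro s ⟨hsS, hsV⟩ l ⟨hlV, hlK⟩ hfl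
          have h1 : Γ (s, l) ∈ Z := hsS l hlK hfl
          have h2 : Γ (s, l) ∈ U := hV12 hsV hlV
          have h3 : Γ (s, l) ∈ Z ∩ U := ⟨h1, h2⟩
          rw [hZU] at h3
          exact h3.2 i
        · intro hev
          have ha : AnalyticOnNhd ℂ (fun l => f (s₀, l)) univ := fun l _ =>
            (hfa (s₀, l)).comp₂ analyticAt_const analyticAt_id
          have h0 : EqOn (fun l => f (s₀, l)) 0 univ :=
            ha.eqOn_zero_of_preconnected_of_eventuallyEq_zero isPreconnected_univ (mem_univ l₀) hev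
          have h1 := him s₀ hs₀ (Bd * I) (by simp [abs_of_nonneg hB0])
          exact h1 (h0 (mem_univ _))
      have hall := (Filter.eventually_all.2 hgi)
      have hUn' : ∀ᶠ z in 𝓝 (s₀, l₀), Γ z ∈ U := (hΓc (s₀, l₀)).eventually (hUo.mem_nhds hUm)
      filter_upwards [hall, hUn'] with z hz1 hz2 hfz'
      have h3 : Γ z ∈ {q ∈ U | ∀ i, g i q = 0} := ⟨hz2, fun i => hz1 i hfz'⟩
      rw [← hZU] at h3
      exact h3.1
    · have := (hfa (s₀, l₀)).continuousAt.eventually_ne hfz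
      filter_upwards [this] with z hz hz0 using absurd hz0 hz
  -- real points
  have hstart : ∃ᶠ s in 𝓝[≠] (0 : ℂ), s ∈ S := by
    have hS' : ∀ x : ℝ, (x : ℂ) ∈ S := by
      intro x l _ hfl
      set ρ : ℝ := Real.exp (v * x - u * x ^ 2) with hρ
      set a : ℝ := γ * x + δ * x ^ 2 with ha
      have e1 : rr (x : ℂ) = ((ρ : ℝ) : ℂ) := by
        rw [hrr, hρ]; push_cast; rfl
      have e2 : AA (x : ℂ) = ((a : ℝ) : ℂ) := by
        rw [hAA, ha]; push_cast; ring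
      have e3 : mu (x : ℂ) = ((-ρ * a : ℝ) : ℂ) := by
        show -rr (x : ℂ) * AA (x : ℂ) = _
        rw [e1, e2]; push_cast; ring
      have hρ0 : 0 < ρ := Real.exp_pos _
      have hFF : FF (PP3 (G0 ((x : ℂ), l))) = 0 := by
        rw [FF_prod he]
        have : GG e (G0 ((x : ℂ), l)) = 0 := hfl
        rw [this, zero_mul]
      have hPP : PP3 (G0 ((x : ℂ), l)) = (l, ((ρ ^ 2 - (-ρ * a) ^ 2 : ℝ) : ℂ), ((-ρ * a : ℝ) : ℂ)) := by
        simp only [hG0, PP3, e1, e3]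
        push_cast
        rfl
      rw [hPP] at hFF
      have him0 : l.im = 0 := real_of_real (by
        have : 0 < ρ ^ 2 := by positivity
        linarith) hFF
      have hl : l = (l.re : ℂ) := by
        apply Complex.ext <;> simp [him0]
      have hΓx : Γ ((x : ℂ), l) = (((l.re / (2 * ρ) : ℝ) : ℂ), ((a : ℝ) : ℂ), ((ρ : ℝ) : ℂ)) := by
        simp only [hΓ, e1, e2]
        refine Prod.ext ?_ rfl
        simp only
        rw [hl]
        push_cast
        simp only [Complex.ofReal_re]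
        rw [div_eq_mul_inv]
      have hz : GG e (G0 ((x : ℂ), l)) = 0 := hfl
      rw [hG0Γ, hΓx] at hz
      rw [hΓx]
      exact hreal _ _ _ hρ0 hz
    have htend : Tendsto (fun x : ℝ => (x : ℂ)) (𝓝[≠] 0) (𝓝[≠] 0) := by
      apply tendsto_nhdsWithin_of_tendsto_nhds_of_eventually_within
      · have := Complex.continuous_ofReal.tendsto 0
        rw [Complex.ofReal_zero] at this
        exact this.mono_left nhdsWithin_le_nhds
      · filter_upwards [self_mem_nhdsWithin] with x hx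
        exact Complex.ofReal_ne_zero.2 hx
    exact htend.frequently (Filter.Eventually.of_forall hS').frequently
  -- connectedness
  have hopen : IsOpen (interior S) := isOpen_interior
  have hsub : ball (0 : ℂ) 2 ⊆ interior S := by
    apply (convex_ball (0 : ℂ) 2).isPreconnected.subset_of_closure_inter_subset hopen
    · refine ⟨0, mem_ball_self (by norm_num), ?_⟩
      exact mem_interior_iff_mem_nhds.2 (claim1 0 (mem_ball_self (by norm_num)) hstart)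
    · rintro s ⟨hs1, hs2⟩
      have h1 := (freq_of_closure hopen hs1).mono fun x hx => interior_subset hx
      exact mem_interior_iff_mem_nhds.2 (claim1 s hs2 h1)
  have hI : I ∈ S := interior_subset (hsub (by
    rw [mem_ball_zero_iff, Complex.norm_I]; norm_num))
  have hl₁K : 2 * r₁ * B₁ ∈ K := by
    have h1 := abs_lt.1 hXl
    have h2 : |(2 * r₁ * B₁).im| ≤ Bd := by rw [hB]; linarith
    have h3 := abs_le.1 h2
    exact ⟨⟨h1.1.le, h1.2.le⟩, ⟨h3.1, h3.2⟩⟩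
  have hfin : Γ (I, 2 * r₁ * B₁) = (B₁, A₁, r₁) := by
    rw [hΓ]; simp only [hrrI, hAI]
    refine Prod.ext ?_ rfl
    simp only
    field_simp
  have hfinq : G0 (I, 2 * r₁ * B₁) = QQ3 B₁ A₁ r₁ := by
    rw [hG0Γ, hfin]
  have := hI (2 * r₁ * B₁) hl₁K (by rw [hf]; simp only; rw [hfinq]; exact hq)
  rw [hfin] at this
  exact this

end Pool.Agent.N261.JS
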