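import Pool.Agent.N261.JS.Def

/-!
# The Josephson model: statements of the parts
-/

open Complex Filter Topology Set

namespace Pool.Agent.N261.JS

/-- Existence for the linear system (I prove this one). -/
def S_EX : Prop :=
  ∀ B A r : ℂ, r ≠ 0 → ∀ (τ₀ : ℝ) (c d : ℂ), ∃ X Y : ℝ → ℂ, IsLin B A r X Y ∧ X τ₀ = c ∧ Y τ₀ = d

/-- RIC: Riccati solutions in the sphere are quotients of solutions of the linear system. -/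
def S_RIC : Prop :=
  ∀ B A r : ℂ, r ≠ 0 → ∀ e : ℂ, (B, A, r) ∈ Sig e ↔ Fixes B A r e

/-- PEX: global existence, uniqueness, Lipschitz dependence for the real equation. -/
def S_PEX : Prop :=
  (∀ B A r x : ℝ, 0 < r → ∃ φ : ℝ → ℝ, IsPhase B A r φ ∧ φ 0 = x) ∧
  (∀ (B A r : ℝ) (φ ψ : ℝ → ℝ) (τ₀ : ℝ), 0 < r → IsPhase B A r φ → IsPhase B A r ψ →
    φ τ₀ = ψ τ₀ → φ = ψ) ∧
  (∀ (B A r : ℝ) (φ ψ : ℝ → ℝ), 0 < r → IsPhase B A r φ → IsPhase B A r ψ →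
    |φ (2 * Real.pi) - ψ (2 * Real.pi)| ≤ Real.exp (4 * Real.pi * r) * |φ 0 - ψ 0|)

/-- CMP: uniform strict monotonicity in `B`. -/
def S_CMP : Prop :=
  ∀ (B B' A r : ℝ) (φ ψ : ℝ → ℝ), 0 < r → B < B' → IsPhase B A r φ → IsPhase B' A r ψ →
    φ 0 = ψ 0 →
    φ (2 * Real.pi) + (B' - B) * (1 - Real.exp (-(4 * Real.pi * r))) ≤ ψ (2 * Real.pi)

/-- ROT: rotation numbers. -/
def S_ROT : Prop :=
  (∀ (B A r : ℝ) (φ : ℝ → ℝ) (s : ℤ), 0 < r → IsPhase B A r φ →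
    φ (2 * Real.pi) = φ 0 + 2 * Real.pi * s → Tendsto (fun τ => φ τ / τ) atTop (𝓝 (s : ℝ))) ∧
  (∀ (B A r c ρ : ℝ) (φ : ℝ → ℝ), 0 < r →
    (∀ ψ : ℝ → ℝ, IsPhase B A r ψ → ψ 0 + c ≤ ψ (2 * Real.pi)) → IsPhase B A r φ →
    Tendsto (fun τ => φ τ / τ) atTop (𝓝 ρ) → c ≤ 2 * Real.pi * ρ) ∧
  (∀ (B A r c ρ : ℝ) (φ : ℝ → ℝ), 0 < r →
    (∀ ψ : ℝ → ℝ, IsPhase B A r ψ → ψ (2 * Real.pi) ≤ ψ 0 + c) → IsPhase B A r φ →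
    Tendsto (fun τ => φ τ / τ) atTop (𝓝 ρ) → 2 * Real.pi * ρ ≤ c)

/-- SGN: if the time-`2π` map fixes `θ = ± π/2` modulo `2π`, with lift shift `2πs`, then the
displacement `ψ(2π) - ψ(0) - 2πs` has constant sign. -/
def S_SGN : Prop :=
  ∀ (B A r θ : ℝ) (s : ℤ) (φ : ℝ → ℝ), 0 < r → (θ = Real.pi / 2 ∨ θ = -(Real.pi / 2)) →
    IsPhase B A r φ → φ 0 = θ → φ (2 * Real.pi) = θ + 2 * Real.pi * s →
    (∀ ψ : ℝ → ℝ, IsPhase B A r ψ → ψ 0 + 2 * Real.pi * s ≤ ψ (2 * Real.pi)) ∨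
    (∀ ψ : ℝ → ℝ, IsPhase B A r ψ → ψ (2 * Real.pi) ≤ ψ 0 + 2 * Real.pi * s)

/-- FRO: a point where the time-`2π` map fixes `± π/2` is a boundary point of a phase-lock area. -/
def S_FRO : Prop :=
  ∀ (B A r θ : ℝ), 0 < r → (θ = Real.pi / 2 ∨ θ = -(Real.pi / 2)) →
    Fixes B A r (Complex.exp (θ * I)) →
    ((B : ℂ), (A : ℂ), (r : ℂ)) ∈ Bdry (fun _ => True) θ

end Pool.Agent.N261.JS
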