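import Pool.Agent.N261.HE.Global
import Pool.Agent.N261.JS.Stm

/-!
# The linear system and the functions `G_±`
-/

set_option autoImplicit false

open Complex Filter Topology Set

namespace Pool.Agent.N261.JS

open Pool.Agent.N261.HE

/-- the parameters `(l, λ, μ)` of the Heun equation -/
noncomputable def PP3 (q : ℂ × ℂ × ℂ) : ℂ × ℂ × ℂ := (q.1, q.2.2 ^ 2 - q.2.1 ^ 2, q.2.1)

lemma PP3_kappa (q : ℂ × ℂ × ℂ) : (PP3 q).2.1 + (PP3 q).2.2 ^ 2 = q.2.2 ^ 2 := by
  simp [PP3]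

/-- `SYM` -/
lemma sym_n (p : ℂ × ℂ × ℂ) : n21 p = -(p.2.1 + p.2.2 ^ 2) * n12 p := by
  have hcos : ∀ τ : ℝ, Complex.cos (((2 * Real.pi - τ : ℝ)) : ℂ) = Complex.cos τ := by
    intro τ
    rw [← Complex.ofReal_cos, ← Complex.ofReal_cos, Real.cos_two_pi_sub]
  have hbb : ∀ τ : ℝ, bb p (2 * Real.pi - τ) = bb p τ := by
    intro τ
    simp only [bb]
    rw [hcos]
  set Q : ℝ → ℂ := fun τ => ww p (1, 0) τ * ww p (0, 1) (2 * Real.pi - τ) -
    (p.2.1 + p.2.2 ^ 2) * (vv p (1, 0) τ * vv p (0, 1) (2 * Real.pi - τ)) with hQ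
  have hs : ∀ τ : ℝ, HasDerivAt (fun τ : ℝ => 2 * Real.pi - τ) (-1) τ := fun τ => by
    simpa using (hasDerivAt_id τ).const_sub (2 * Real.pi)
  have hd : ∀ τ, HasDerivAt Q 0 τ := by
    intro τ
    have e1 := (ww_hd p (0, 1) (2 * Real.pi - τ)).scomp τ (hs τ)
    have e2 := (vv_hd p (0, 1) (2 * Real.pi - τ)).scomp τ (hs τ)
    have h := ((ww_hd p (1, 0) τ).mul e1).sub (((vv_hd p (1, 0) τ).mul e2).const_mul
      (p.2.1 + p.2.2 ^ 2))
    refine h.congr_deriv ?_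
    simp only [Function.comp, hbb, neg_smul, one_smul]
    ring
  have hc : Q (2 * Real.pi) = Q 0 :=
    is_const_of_deriv_eq_zero (fun t => (hd t).differentiableAt) (fun t => (hd t).deriv) _ _
  have g0 : exp (gg p 0) ≠ 0 := exp_ne_zero _
  have g1 : exp (gg p (2 * Real.pi)) ≠ 0 := exp_ne_zero _
  have z1 : ((2 * Real.pi - 2 * Real.pi : ℝ)) = 0 := by ring
  have z2 : ((2 * Real.pi - 0 : ℝ)) = 2 * Real.pi := by ring
  simp only [hQ, z1, z2, ww, vv] at hc
  simp only [Complex.ofReal_zero, zero_mul, (HS p).Y1_zero, (HS p).Y2_zero, mul_zero, mul_one,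
    sub_zero, zero_sub] at hc
  have e3 : ((2 * Real.pi : ℝ) : ℂ) * I = 2 * Real.pi * I := by push_cast; ring
  rw [e3] at hc
  have hc' : exp (gg p 0) * exp (gg p (2 * Real.pi)) * n21 p =
      exp (gg p 0) * exp (gg p (2 * Real.pi)) * (-(p.2.1 + p.2.2 ^ 2) * n12 p) := by
    rw [n21, n12]
    linear_combination hc
  exact mul_left_cancel₀ (mul_ne_zero g0 g1) hc'

/-- the parameters of the Heun equation for `(B, A, r)` -/
noncomputable def QQ3 (B A r : ℂ) : ℂ × ℂ × ℂ := (2 * r * B, -r * A, r)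

lemma bb_QQ (B A r : ℂ) (τ : ℝ) : bb (PP3 (QQ3 B A r)) τ = 2 * r * (B + A * Complex.cos τ) := by
  simp only [bb, PP3, QQ3]
  ring

lemma lin_of (B A r : ℂ) (c : ℂ × ℂ) :
    IsLin B A r (fun τ => ww (PP3 (QQ3 B A r)) c τ) (fun τ => -I * r * vv (PP3 (QQ3 B A r)) c τ) := by
  have hk : (PP3 (QQ3 B A r)).2.1 + (PP3 (QQ3 B A r)).2.2 ^ 2 = r ^ 2 := PP3_kappa _
  constructor
  · intro τ
    refine (ww_hd (PP3 (QQ3 B A r)) c τ).congr_deriv ?_
    rw [bb_QQ, hk]
    ring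
  · intro τ
    refine ((vv_hd (PP3 (QQ3 B A r)) c τ).const_mul (-I * r)).congr_deriv ?_
    rw [bb_QQ]
    linear_combination (-r * ww (PP3 (QQ3 B A r)) c τ) * I_sq

theorem t_EX : S_EX := by
  intro B A r hr τ₀ c d
  set p := PP3 (QQ3 B A r) with hp
  set t : ℂ := (τ₀ : ℂ) * I with ht
  set W := (HS p).Y1 (1, 0) t * (HS p).Y2 (0, 1) t - (HS p).Y1 (0, 1) t * (HS p).Y2 (1, 0) t
    with hW
  have hW0 : W ≠ 0 := by rw [hW, wronskian]; exact exp_ne_zero _
  set g := exp (gg p τ₀) with hg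
  have hg0 : g ≠ 0 := exp_ne_zero _
  -- want `g * Y2 = c`, `-I * r * g * Y1 = d`
  set v := d * I / (r * g) with hv
  set w := c / g with hw
  set c1 := (v * (HS p).Y2 (0, 1) t - w * (HS p).Y1 (0, 1) t) / W with hc1
  set c2 := (w * (HS p).Y1 (1, 0) t - v * (HS p).Y2 (1, 0) t) / W with hc2
  refine ⟨_, _, lin_of B A r (c1, c2), ?_, ?_⟩
  · show g * (HS p).Y2 (c1, c2) t = c
    rw [(Y_lin p (c1, c2) t).2]
    have : c1 * (HS p).Y2 (1, 0) t + c2 * (HS p).Y2 (0, 1) t = w := by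
      rw [hc1, hc2]
      field_simp
      rw [hW]; ring
    simp only
    rw [this, hw]
    field_simp
  · show -I * r * (g * (HS p).Y1 (c1, c2) t) = d
    rw [(Y_lin p (c1, c2) t).1]
    have : c1 * (HS p).Y1 (1, 0) t + c2 * (HS p).Y1 (0, 1) t = v := by
      rw [hc1, hc2]
      field_simp
      rw [hW]; ring
    simp only
    rw [this, hv]
    field_simp
    rw [I_sq]; ring

lemma IsLin.unique {B A r : ℂ} {X Y X' Y' : ℝ → ℂ} (h : IsLin B A r X Y) (h' : IsLin B A r X' Y')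
    {t₀ : ℝ} (h0 : X t₀ = X' t₀) (h1 : Y t₀ = Y' t₀) : X = X' ∧ Y = Y' := by
  set v : ℝ → ℂ × ℂ → ℂ × ℂ := fun τ z =>
    (I * r * (B + A * Complex.cos τ) * z.1 + r * z.2, r * z.1 - I * r * (B + A * Complex.cos τ) * z.2)
    with hv
  have hcos : ∀ τ : ℝ, ‖Complex.cos (τ : ℂ)‖ ≤ 1 := fun τ => by
    rw [← Complex.ofReal_cos, Complex.norm_real]; exact Real.abs_cos_le_one τ
  set K : NNReal := ⟨‖r‖ * (‖B‖ + ‖A‖) + ‖r‖, by positivity⟩ with hK
  have hb : ∀ τ : ℝ, ‖I * r * (B + A * Complex.cos τ)‖ ≤ ‖r‖ * (‖B‖ + ‖A‖) := by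
    intro τ
    rw [norm_mul, norm_mul, Complex.norm_I, one_mul]
    apply mul_le_mul_of_nonneg_left _ (norm_nonneg _)
    refine (norm_add_le _ _).trans ?_
    rw [norm_mul]
    have := mul_le_mul_of_nonneg_left (hcos τ) (norm_nonneg A)
    linarith
  have hL : ∀ τ, LipschitzWith K (v τ) := by
    intro τ
    apply LipschitzWith.of_dist_le_mul
    intro z z'
    have hx1 : ‖z.1 - z'.1‖ ≤ ‖z - z'‖ := by
      rw [← Prod.fst_sub]; exact norm_fst_le _
    have hx2 : ‖z.2 - z'.2‖ ≤ ‖z - z'‖ := by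
      rw [← Prod.snd_sub]; exact norm_snd_le _
    rw [dist_eq_norm, dist_eq_norm]
    have hbt := hb τ
    set b := I * r * (B + A * Complex.cos τ) with hbdef
    have hKc : (K : ℝ) = ‖r‖ * (‖B‖ + ‖A‖) + ‖r‖ := rfl
    have hbn := norm_nonneg b
    have hrn := norm_nonneg r
    have hzn := norm_nonneg (z - z')
    have hBn := norm_nonneg (z.1 - z'.1)
    have hCn := norm_nonneg (z.2 - z'.2)
    rw [hKc, Prod.norm_def]
    apply max_le
    · have : (v τ z - v τ z').1 = b * (z.1 - z'.1) + r * (z.2 - z'.2) := by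
        simp only [hv, Prod.fst_sub]; ring
      rw [this]
      refine (norm_add_le _ _).trans ?_
      rw [norm_mul b, norm_mul r]
      have a1 := mul_le_mul hbt hx1 hBn (by positivity)
      have a2 := mul_le_mul_of_nonneg_left hx2 hrn
      linarith
    · have : (v τ z - v τ z').2 = r * (z.1 - z'.1) - b * (z.2 - z'.2) := by
        simp only [hv, Prod.snd_sub]; ring
      rw [this]
      refine (norm_sub_le _ _).trans ?_
      rw [norm_mul r, norm_mul b]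
      have a1 := mul_le_mul hbt hx2 hCn (by positivity)
      have a2 := mul_le_mul_of_nonneg_left hx1 hrn
      linarith
  have key := ODE_solution_unique_univ (v := v) (K := K) (s := fun _ => univ)
    (f := fun τ => (X τ, Y τ)) (g := fun τ => (X' τ, Y' τ)) (t₀ := t₀)
    (fun τ => (hL τ).lipschitzOnWith) (fun τ => ⟨(h.1 τ).prodMk (h.2 τ), mem_univ _⟩)
    (fun τ => ⟨(h'.1 τ).prodMk (h'.2 τ), mem_univ _⟩) (by simp [h0, h1])
  constructor
  · funext τ; exact congrArg Prod.fst (congrFun key τ)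
  · funext τ; exact congrArg Prod.snd (congrFun key τ)

/-- the functions `G_±` (in the variables `(l, μ, r)`) -/
noncomputable def GG (e : ℂ) (q : ℂ × ℂ × ℂ) : ℂ :=
  n22 (PP3 q) - n11 (PP3 q) + 2 * I * e * q.2.2 * n12 (PP3 q)

lemma fixes_iff {B A r e : ℂ} (hr : r ≠ 0) (he : e ^ 2 = -1) :
    Fixes B A r e ↔ GG e (QQ3 B A r) = 0 := by
  set p := PP3 (QQ3 B A r) with hp
  have hk : p.2.1 + p.2.2 ^ 2 = r ^ 2 := PP3_kappa _
  have hsym := sym_n p
  rw [hk] at hsym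
  set g0 := exp (gg p 0) with hg0
  have hg0' : g0 ≠ 0 := exp_ne_zero _
  set g1 := exp (gg p (2 * Real.pi)) with hg1
  have hg1' : g1 ≠ 0 := exp_ne_zero _
  set c : ℂ × ℂ := (I / (r * g0), e / g0) with hc
  have hlin := lin_of B A r c
  rw [← hp] at hlin
  have hX0 : ww p c 0 = e := by
    simp only [ww]
    rw [← hg0, Complex.ofReal_zero, zero_mul, (HS p).Y2_zero, hc]
    simp only
    field_simp
  have hY0 : -I * r * vv p c 0 = 1 := by
    simp only [vv]
    rw [← hg0, Complex.ofReal_zero, zero_mul, (HS p).Y1_zero, hc]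
    simp only
    field_simp
    rw [I_sq]; ring
  have e3 : ((2 * Real.pi : ℝ) : ℂ) * I = 2 * Real.pi * I := by push_cast; ring
  have hX1 : ww p c (2 * Real.pi) = g1 * (c.1 * n21 p + c.2 * n22 p) := by
    simp only [ww]
    rw [← hg1, e3, (Y_lin p c _).2, n21, n22]
  have hY1 : vv p c (2 * Real.pi) = g1 * (c.1 * n11 p + c.2 * n12 p) := by
    simp only [vv]
    rw [← hg1, e3, (Y_lin p c _).1, n11, n12]
  have hiff : ww p c (2 * Real.pi) = e * (-I * r * vv p c (2 * Real.pi)) ↔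
      GG e (QQ3 B A r) = 0 := by
    rw [hX1, hY1, GG, ← hp]
    simp only [QQ3]
    rw [hsym, hc]
    simp only
    have hid : g1 * (I / (r * g0) * (-r ^ 2 * n12 p) + e / g0 * n22 p) -
        e * (-I * r * (g1 * (I / (r * g0) * n11 p + e / g0 * n12 p))) =
        (g1 / g0) * e * (n22 p - n11 p + 2 * I * e * r * n12 p) := by
      field_simp
      linear_combination (e * n11 p) * I_sq + (-I * r * n12 p) * he
    constructor
    · intro h
      have h1 := sub_eq_zero.2 h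
      rw [hid] at h1
      have he0 : e ≠ 0 := by
        rintro rfl
        norm_num at he
      exact (mul_eq_zero.1 h1).resolve_left (mul_ne_zero (div_ne_zero hg1' hg0') he0)
    · intro h
      apply sub_eq_zero.1
      rw [hid, h, mul_zero]
  rw [← hiff]
  constructor
  · rintro ⟨X, Y, hL, h0, h1, h2⟩
    obtain ⟨u1, u2⟩ := IsLin.unique hL hlin (h0.trans hX0.symm) (h1.trans hY0.symm)
    rw [u1, u2] at h2
    exact h2
  · intro h
    exact ⟨_, _, hlin, hX0, hY0, h⟩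

lemma FF_prod {e : ℂ} (he : e ^ 2 = -1) (q : ℂ × ℂ × ℂ) :
    FF (PP3 q) = GG e q * GG (-e) q := by
  have hsym := sym_n (PP3 q)
  rw [PP3_kappa] at hsym
  have hdet := det_eq (PP3 q)
  simp only [FF, GG]
  rw [← hdet, hsym]
  linear_combination (4 * q.2.2 ^ 2 * n12 (PP3 q) ^ 2 * I ^ 2) * he -
    (4 * q.2.2 ^ 2 * n12 (PP3 q) ^ 2) * I_sq

lemma PP3_analytic (q : ℂ × ℂ × ℂ) : AnalyticAt ℂ PP3 q := by
  have a1 : AnalyticAt ℂ (fun q : ℂ × ℂ × ℂ => q.1) q := analyticAt_fst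
  have a2 : AnalyticAt ℂ (fun q : ℂ × ℂ × ℂ => q.2.1) q :=
    AnalyticAt.fun_comp analyticAt_fst analyticAt_snd
  have a3 : AnalyticAt ℂ (fun q : ℂ × ℂ × ℂ => q.2.2) q :=
    AnalyticAt.fun_comp analyticAt_snd analyticAt_snd
  exact a1.prod (((a3.pow 2).sub (a2.pow 2)).prod a2)

lemma GG_analytic (e : ℂ) (q : ℂ × ℂ × ℂ) : AnalyticAt ℂ (GG e) q := by
  have hP := PP3_analytic q
  have h11 : AnalyticAt ℂ (fun q => n11 (PP3 q)) q :=
    AnalyticAt.fun_comp (g := n11) (n_analytic (PP3 q) (1, 0) (2 * Real.pi * I)).1 hP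
  have h12 : AnalyticAt ℂ (fun q => n12 (PP3 q)) q :=
    AnalyticAt.fun_comp (g := n12) (n_analytic (PP3 q) (0, 1) (2 * Real.pi * I)).1 hP
  have h22 : AnalyticAt ℂ (fun q => n22 (PP3 q)) q :=
    AnalyticAt.fun_comp (g := n22) (n_analytic (PP3 q) (0, 1) (2 * Real.pi * I)).2 hP
  have a3 : AnalyticAt ℂ (fun q : ℂ × ℂ × ℂ => q.2.2) q :=
    AnalyticAt.fun_comp analyticAt_snd analyticAt_snd
  exact (h22.sub h11).add ((analyticAt_const.mul a3).mul h12)

end Pool.Agent.N261.JS
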