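import Pool.Agent.N261.JS.Stm

/-!
# The Josephson model, part PEX: global existence, uniqueness, Lipschitz dependence (helper82)
-/

set_option autoImplicit false

open Filter Topology Set
open scoped NNReal

namespace Pool.Agent.N261.JS

namespace Pex

/-- the vector field -/
noncomputable def v (B A r : ℝ) (t x : ℝ) : ℝ := 2 * r * (-Real.sin x + B + A * Real.cos t)

lemma lip (B A : ℝ) {r : ℝ} (hr : 0 < r) (t : ℝ) :
    LipschitzWith (Real.toNNReal (2 * r)) (v B A r t) := by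
  refine LipschitzWith.of_dist_le_mul fun x y => ?_
  rw [Real.coe_toNNReal _ (by positivity), Real.dist_eq, Real.dist_eq]
  have h1 : v B A r t x - v B A r t y = 2 * r * (Real.sin y - Real.sin x) := by
    unfold v; ring
  rw [h1, abs_mul, abs_of_pos (by positivity : (0 : ℝ) < 2 * r)]
  refine mul_le_mul_of_nonneg_left ?_ (by positivity)
  have h2 := Real.lipschitzWith_sin.dist_le_mul y x
  rw [Real.dist_eq, Real.dist_eq, NNReal.coe_one, one_mul, abs_sub_comm y x] at h2
  exact h2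

/-- the bound of the vector field -/
noncomputable def C (B A r : ℝ) : ℝ := 2 * r * (1 + |B| + |A|)

lemma bd (B A : ℝ) {r : ℝ} (hr : 0 < r) (t x : ℝ) : |v B A r t x| ≤ C B A r := by
  unfold v C
  rw [abs_mul, abs_of_pos (by positivity : (0 : ℝ) < 2 * r)]
  refine mul_le_mul_of_nonneg_left ?_ (by positivity)
  have h1 : |Real.sin x| ≤ 1 := Real.abs_sin_le_one x
  have h2 : |A * Real.cos t| ≤ |A| := by
    rw [abs_mul]
    exact mul_le_of_le_one_right (abs_nonneg _) (Real.abs_cos_le_one t)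
  calc |-Real.sin x + B + A * Real.cos t| ≤ |-Real.sin x + B| + |A * Real.cos t| := abs_add_le _ _
    _ ≤ (|-Real.sin x| + |B|) + |A * Real.cos t| := by gcongr; exact abs_add_le _ _
    _ ≤ 1 + |B| + |A| := by rw [abs_neg]; gcongr

lemma C_nonneg (B A : ℝ) {r : ℝ} (hr : 0 < r) : 0 ≤ C B A r := by
  unfold C; positivity

lemma local_ex (B A x : ℝ) {r : ℝ} (hr : 0 < r) (n : ℕ) : ∃ α : ℝ → ℝ, α 0 = x ∧
    ∀ t ∈ Ioo (-((n : ℝ) + 1)) ((n : ℝ) + 1), HasDerivAt α (v B A r t (α t)) t := by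
  have hn : (0 : ℝ) < (n : ℝ) + 1 := by positivity
  have h0 : (0 : ℝ) ∈ Icc (-((n : ℝ) + 1)) ((n : ℝ) + 1) := ⟨by linarith, hn.le⟩
  have hC := C_nonneg B A hr
  have hPL : IsPicardLindelof (v B A r) (tmin := -((n : ℝ) + 1)) (tmax := (n : ℝ) + 1) ⟨0, h0⟩ x
      (Real.toNNReal (C B A r * ((n : ℝ) + 1))) 0 (Real.toNNReal (C B A r))
      (Real.toNNReal (2 * r)) := by
    constructor
    · intro t _
      exact (lip B A hr t).lipschitzOnWith
    · intro y _
      unfold v
      fun_prop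
    · intro t _ y _
      rw [Real.norm_eq_abs, Real.coe_toNNReal _ hC]
      exact bd B A hr t y
    · rw [Real.coe_toNNReal _ hC, Real.coe_toNNReal _ (by positivity)]
      simp
  obtain ⟨α, h1, h2⟩ := hPL.exists_eq_forall_mem_Icc_hasDerivWithinAt₀
  exact ⟨α, h1, fun t ht => (h2 t (Ioo_subset_Icc_self ht)).hasDerivAt (Icc_mem_nhds ht.1 ht.2)⟩

theorem exist (B A r x : ℝ) (hr : 0 < r) : ∃ φ : ℝ → ℝ, IsPhase B A r φ ∧ φ 0 = x := by
  choose α h0 h1 using fun n : ℕ => local_ex B A x hr n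
  have agree : ∀ (n m : ℕ) (t : ℝ), |t| < n + 1 → |t| < m + 1 → α n t = α m t := by
    intro n m t hn hm
    set c : ℝ := min ((n : ℝ) + 1) ((m : ℝ) + 1) with hc
    have hc0 : 0 < c := lt_min (by positivity) (by positivity)
    have htc : |t| < c := lt_min hn hm
    have hs : ∀ s ∈ Ioo (-c) c, s ∈ Ioo (-((n : ℝ) + 1)) ((n : ℝ) + 1) := by
      intro s hs
      have : c ≤ (n : ℝ) + 1 := min_le_left _ _
      exact ⟨by linarith [hs.1], by linarith [hs.2]⟩
    have hs' : ∀ s ∈ Ioo (-c) c, s ∈ Ioo (-((m : ℝ) + 1)) ((m : ℝ) + 1) := by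
      intro s hs
      have : c ≤ (m : ℝ) + 1 := min_le_right _ _
      exact ⟨by linarith [hs.1], by linarith [hs.2]⟩
    exact ODE_solution_unique_of_mem_Ioo (s := fun _ => univ) (v := v B A r)
      (K := Real.toNNReal (2 * r)) (t₀ := 0)
      (fun s _ => (lip B A hr s).lipschitzOnWith) ⟨by linarith, hc0⟩
      (fun s hh => ⟨h1 n s (hs s hh), trivial⟩) (fun s hh => ⟨h1 m s (hs' s hh), trivial⟩)
      (by rw [h0, h0]) (abs_lt.mp htc)
  have hceil : ∀ t : ℝ, |t| < (⌈|t|⌉₊ : ℝ) + 1 := fun t => by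
    have := Nat.le_ceil |t|
    linarith
  refine ⟨fun t => α ⌈|t|⌉₊ t, ?_, ?_⟩
  · intro t
    set m : ℕ := ⌈|t|⌉₊ + 1 with hm
    have hev : (fun t => α ⌈|t|⌉₊ t) =ᶠ[𝓝 t] α m := by
      have hopen : ∀ᶠ s in 𝓝 t, |s| < |t| + 1 :=
        (continuous_abs.tendsto t).eventually_lt_const (by linarith)
      filter_upwards [hopen] with s hs
      refine agree _ _ s (hceil s) ?_
      rw [hm]
      push_cast
      have := Nat.le_ceil |t|
      linarith
    have ht : t ∈ Ioo (-((m : ℝ) + 1)) ((m : ℝ) + 1) := by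
      have h5 : |t| < (m : ℝ) + 1 := by
        rw [hm]
        push_cast
        have := Nat.le_ceil |t|
        linarith
      exact abs_lt.mp h5
    have hd := (h1 m t ht).congr_of_eventuallyEq hev
    have he : α m t = α ⌈|t|⌉₊ t := hev.eq_of_nhds.symm
    rw [he] at hd
    exact hd
  · show α ⌈|(0 : ℝ)|⌉₊ 0 = x
    exact h0 _

end Pex

open Pex

theorem t_PEX : S_PEX := by
  refine ⟨fun B A r x hr => exist B A r x hr, ?_, ?_⟩
  · intro B A r φ ψ τ₀ hr hφ hψ h
    exact ODE_solution_unique_univ (s := fun _ => univ) (v := v B A r)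
      (K := Real.toNNReal (2 * r)) (t₀ := τ₀)
      (fun s => (lip B A hr s).lipschitzOnWith) (fun t => ⟨hφ t, trivial⟩)
      (fun t => ⟨hψ t, trivial⟩) h
  · intro B A r φ ψ hr hφ hψ
    have h := dist_le_of_trajectories_ODE (v := v B A r) (K := Real.toNNReal (2 * r))
      (f := φ) (g := ψ) (a := 0) (b := 2 * Real.pi) (δ := dist (φ 0) (ψ 0))
      (fun t => lip B A hr t)
      (fun t _ => (hφ t).continuousAt.continuousWithinAt)
      (fun t _ => (hφ t).hasDerivWithinAt)
      (fun t _ => (hψ t).continuousAt.continuousWithinAt)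
      (fun t _ => (hψ t).hasDerivWithinAt) le_rfl (2 * Real.pi)
      ⟨by positivity, le_rfl⟩
    rw [Real.dist_eq, Real.dist_eq, Real.coe_toNNReal _ (by positivity), sub_zero] at h
    refine h.trans (le_of_eq ?_)
    rw [mul_comm]
    congr 2
    ring

end Pool.Agent.N261.JS
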