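import Pool.Agent.N261.JS.Stm

/-!
# RIC: Riccati solutions in the sphere are quotients of solutions of the linear system
-/

set_option autoImplicit false

open Complex Filter Topology Set

namespace Pool.Agent.N261.JS

namespace Ric

/-- The Wronskian of two linear solutions is constant. -/
lemma wr_const {B A r : ℂ} {X Y X' Y' : ℝ → ℂ} (h : IsLin B A r X Y) (h' : IsLin B A r X' Y')
    (s t : ℝ) : X s * Y' s - Y s * X' s = X t * Y' t - Y t * X' t := by
  have hd : ∀ τ : ℝ, HasDerivAt (fun u => X u * Y' u - Y u * X' u) 0 τ := by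
    intro τ
    have h1 := ((h.1 τ).mul (h'.2 τ)).sub ((h.2 τ).mul (h'.1 τ))
    refine h1.congr_deriv ?_
    ring
  have hdiff : Differentiable ℝ (fun u => X u * Y' u - Y u * X' u) :=
    fun τ => (hd τ).differentiableAt
  exact is_const_of_deriv_eq_zero hdiff (fun τ => (hd τ).deriv) s t

lemma zero_all (hex : S_EX) {B A r : ℂ} (hr : r ≠ 0) {X Y : ℝ → ℂ} (h : IsLin B A r X Y)
    {t₀ : ℝ} (hX : X t₀ = 0) (hY : Y t₀ = 0) (t : ℝ) : X t = 0 ∧ Y t = 0 := by
  constructor
  · obtain ⟨X', Y', h', hX', hY'⟩ := hex B A r hr t 0 1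
    have := wr_const h h' t t₀
    rw [hX', hY', hX, hY] at this
    simpa using this
  · obtain ⟨X', Y', h', hX', hY'⟩ := hex B A r hr t 1 0
    have := wr_const h h' t t₀
    rw [hX', hY', hX, hY] at this
    simpa using this

/-- The quotient as a point of the sphere. -/
noncomputable def P (X Y : ℝ → ℂ) (t : ℝ) : OnePoint ℂ :=
  if Y t = 0 then OnePoint.infty else ((X t / Y t : ℂ) : OnePoint ℂ)

lemma P_eq_coe {X Y : ℝ → ℂ} {t : ℝ} (hn : ¬ (X t = 0 ∧ Y t = 0)) (f : ℂ) :
    P X Y t = (f : OnePoint ℂ) ↔ X t - f * Y t = 0 := by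
  unfold P
  split_ifs with hY
  · constructor
    · intro h
      exact absurd h (OnePoint.infty_ne_coe f)
    · intro h
      exact absurd ⟨by simpa [hY] using h, hY⟩ hn
  · rw [OnePoint.coe_eq_coe, div_eq_iff hY, sub_eq_zero]

lemma P_eq_sInv {X Y : ℝ → ℂ} {t : ℝ} (hn : ¬ (X t = 0 ∧ Y t = 0)) (g : ℂ) :
    P X Y t = sInv g ↔ Y t - g * X t = 0 := by
  unfold P sInv
  split_ifs with hY hg hg
  · simp [hY, hg]
  · constructor
    · intro h
      exact absurd h (OnePoint.infty_ne_coe _)
    · intro h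
      rw [hY, zero_sub, neg_eq_zero] at h
      rcases mul_eq_zero.mp h with h | h
      · exact absurd h hg
      · exact absurd ⟨h, hY⟩ hn
  · constructor
    · intro h
      exact absurd h (OnePoint.coe_ne_infty _)
    · intro h
      rw [hg, zero_mul, sub_zero] at h
      exact absurd h hY
  · rw [OnePoint.coe_eq_coe, div_eq_iff hY, sub_eq_zero]
    constructor
    · intro h
      rw [h]
      field_simp
    · intro h
      rw [h]
      field_simp

lemma P_isRiccati {B A r : ℂ} {X Y : ℝ → ℂ} (h : IsLin B A r X Y)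
    (hn : ∀ t, ¬ (X t = 0 ∧ Y t = 0)) : IsRiccati B A r (P X Y) := by
  intro τ₀
  have cX : ContinuousAt X τ₀ := (h.1 τ₀).continuousAt
  have cY : ContinuousAt Y τ₀ := (h.2 τ₀).continuousAt
  by_cases hY : Y τ₀ = 0
  · right
    have hX : X τ₀ ≠ 0 := fun hx => hn τ₀ ⟨hx, hY⟩
    refine ⟨fun t => Y t / X t, ?_⟩
    filter_upwards [cX.eventually_ne hX] with t ht
    refine ⟨?_, ?_⟩
    · rw [P_eq_sInv (hn t)]
      field_simp
      ring
    · refine ((h.2 t).div (h.1 t) ht).congr_deriv ?_
      field_simp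
      ring
  · left
    refine ⟨fun t => X t / Y t, ?_⟩
    filter_upwards [cY.eventually_ne hY] with t ht
    refine ⟨?_, ?_⟩
    · rw [P_eq_coe (hn t)]
      field_simp
      ring
    · refine ((h.1 t).div (h.2 t) ht).congr_deriv ?_
      field_simp
      ring

/-- Local uniqueness for a scalar linear equation. -/
lemma scalar_zero {a w : ℝ → ℂ} {t₀ : ℝ} (ha : ContinuousAt a t₀)
    (hw : ∀ᶠ t in 𝓝 t₀, HasDerivAt w (a t * w t) t) (h0 : w t₀ = 0) :
    ∀ᶠ t in 𝓝 t₀, w t = 0 := by
  have hK : ∀ᶠ t in 𝓝 t₀, ‖a t‖ < ‖a t₀‖ + 1 :=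
    ha.norm.eventually_lt_const (by linarith)
  have key := ODE_solution_unique_of_eventually (E := ℂ) (v := fun t x => a t * x)
    (s := fun _ => Set.univ) (K := ⟨‖a t₀‖ + 1, by positivity⟩) (f := w) (g := fun _ => (0 : ℂ))
    (t₀ := t₀) ?_ ?_ ?_ ?_
  · filter_upwards [key] with t ht
    exact ht
  · filter_upwards [hK] with t ht
    apply LipschitzOnWith.of_dist_le_mul
    intro x _ y _
    rw [dist_eq_norm, dist_eq_norm, ← mul_sub, norm_mul]
    exact mul_le_mul_of_nonneg_right ht.le (norm_nonneg _)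
  · filter_upwards [hw] with t ht
    exact ⟨ht, mem_univ _⟩
  · refine Eventually.of_forall fun t => ⟨?_, mem_univ _⟩
    simpa using hasDerivAt_const t (0 : ℂ)
  · exact h0

/-- Two Riccati paths, one coming from a linear solution, which agree at one time agree always. -/
lemma eq_all {B A r : ℂ} {X Y : ℝ → ℂ} (h : IsLin B A r X Y)
    (hn : ∀ t, ¬ (X t = 0 ∧ Y t = 0)) {Φ : ℝ → OnePoint ℂ} (hΦ : IsRiccati B A r Φ)
    {t₀ : ℝ} (h0 : P X Y t₀ = Φ t₀) (t : ℝ) : P X Y t = Φ t := by
  have hcl : IsClopen {t : ℝ | P X Y t = Φ t} := by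
    have hloc : ∀ s : ℝ, (∃ w a : ℝ → ℂ, ContinuousAt a s ∧
        (∀ᶠ t in 𝓝 s, HasDerivAt w (a t * w t) t) ∧
        (∀ᶠ t in 𝓝 s, (P X Y t = Φ t ↔ w t = 0))) := by
      intro s
      rcases hΦ s with ⟨f, hf⟩ | ⟨g, hg⟩
      · refine ⟨fun t => X t - f t * Y t, fun t => I * r * (B + A * Complex.cos t) - r * f t,
          ?_, ?_, ?_⟩
        · have hfc : ContinuousAt f s := hf.self_of_nhds.2.continuousAt
          have hc : ContinuousAt (fun t : ℝ => I * r * (B + A * Complex.cos t)) s := by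
            fun_prop
          exact hc.sub (continuousAt_const.mul hfc)
        · filter_upwards [hf] with t ht
          refine ((h.1 t).sub (ht.2.mul (h.2 t))).congr_deriv ?_
          ring
        · filter_upwards [hf] with t ht
          rw [ht.1]
          exact P_eq_coe (hn t) (f t)
      · refine ⟨fun t => Y t - g t * X t, fun t => -(I * r * (B + A * Complex.cos t)) - r * g t,
          ?_, ?_, ?_⟩
        · have hgc : ContinuousAt g s := hg.self_of_nhds.2.continuousAt
          have hc : ContinuousAt (fun t : ℝ => -(I * r * (B + A * Complex.cos t))) s := by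
            fun_prop
          exact hc.sub (continuousAt_const.mul hgc)
        · filter_upwards [hg] with t ht
          refine ((h.2 t).sub (ht.2.mul (h.1 t))).congr_deriv ?_
          ring
        · filter_upwards [hg] with t ht
          rw [ht.1]
          exact P_eq_sInv (hn t) (g t)
    constructor
    · rw [← isOpen_compl_iff, isOpen_iff_mem_nhds]
      intro s hs
      obtain ⟨w, a, ha, hw, hiff⟩ := hloc s
      have hws : w s ≠ 0 := fun h0 => hs (hiff.self_of_nhds.mpr h0)
      have hwc : ContinuousAt w s := hw.self_of_nhds.continuousAt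
      filter_upwards [hiff, hwc.eventually_ne hws] with t h1 h2 h3
      exact h2 (h1.mp h3)
    · rw [isOpen_iff_mem_nhds]
      intro s hs
      obtain ⟨w, a, ha, hw, hiff⟩ := hloc s
      have hws : w s = 0 := hiff.self_of_nhds.mp hs
      filter_upwards [hiff, scalar_zero ha hw hws] with t h1 h2
      exact h1.mpr h2
  have huniv := hcl.eq_univ ⟨t₀, h0⟩
  have : t ∈ {t : ℝ | P X Y t = Φ t} := by rw [huniv]; exact mem_univ t
  exact this

end Ric

open Ric in
theorem t_RIC (hex : S_EX) : S_RIC := by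
  intro B A r hr e
  constructor
  · rintro ⟨-, Φ, hΦ, h0, h1⟩
    obtain ⟨X, Y, h, hX, hY⟩ := hex B A r hr 0 e 1
    have hn : ∀ t, ¬ (X t = 0 ∧ Y t = 0) := by
      intro t ht
      have := (zero_all hex hr h ht.1 ht.2 0).2
      rw [hY] at this
      exact one_ne_zero this
    have hP0 : P X Y 0 = Φ 0 := by
      rw [h0, P_eq_coe (hn 0), hX, hY]
      ring
    refine ⟨X, Y, h, hX, hY, ?_⟩
    have h2 := eq_all h hn hΦ hP0 (2 * Real.pi)
    rw [h1, P_eq_coe (hn _)] at h2
    exact sub_eq_zero.mp h2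
  · rintro ⟨X, Y, h, hX, hY, h1⟩
    have hn : ∀ t, ¬ (X t = 0 ∧ Y t = 0) := by
      intro t ht
      have := (zero_all hex hr h ht.1 ht.2 0).2
      rw [hY] at this
      exact one_ne_zero this
    refine ⟨hr, P X Y, P_isRiccati h hn, ?_, ?_⟩
    · rw [P_eq_coe (hn 0), hX, hY]
      ring
    · rw [P_eq_coe (hn _), h1]
      ring

end Pool.Agent.N261.JS
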