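import Pool.Agent.N261.JS.Stm

/-!
# SGN: constant sign of the displacement

If the time-`2π` map of the real Josephson equation fixes `θ = ± π/2` modulo `2π`, with lift
shift `2πs`, then the displacement `ψ(2π) - ψ(0) - 2πs` has constant sign.
-/

open Complex Filter Topology Set

namespace Pool.Agent.N261.JS
namespace SGNx

/-- A function with zero derivative is constant. -/
lemma const_of (f : ℝ → ℂ) (h : ∀ t, HasDerivAt f 0 t) (s t : ℝ) : f s = f t :=
  is_const_of_deriv_eq_zero (fun x => (h x).differentiableAt) (fun x => (h x).deriv) s t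

/-- The Wronskian is constant. -/
lemma wronsk {B A r : ℂ} {X1 Y1 X2 Y2 : ℝ → ℂ} (h1 : IsLin B A r X1 Y1)
    (h2 : IsLin B A r X2 Y2) (s t : ℝ) :
    X1 s * Y2 s - X2 s * Y1 s = X1 t * Y2 t - X2 t * Y1 t := by
  refine const_of (fun τ => X1 τ * Y2 τ - X2 τ * Y1 τ) (fun τ => ?_) s t
  have h := ((h1.1 τ).mul (h2.2 τ)).sub ((h2.1 τ).mul (h1.2 τ))
  refine h.congr_deriv ?_
  ring

/-- Uniqueness for the linear system. -/
lemma lin_zero (hex : S_EX) {B A r : ℂ} (hr : r ≠ 0) {X Y : ℝ → ℂ} (h : IsLin B A r X Y)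
    {τ₀ : ℝ} (hX : X τ₀ = 0) (hY : Y τ₀ = 0) (t : ℝ) : X t = 0 ∧ Y t = 0 := by
  obtain ⟨U1, U2, hU, hU1, hU2⟩ := hex B A r hr t 1 0
  obtain ⟨V1, V2, hV, hV1, hV2⟩ := hex B A r hr t 0 1
  have e1 := wronsk h hU t τ₀
  have e2 := wronsk h hV t τ₀
  rw [hX, hY, hU1, hU2] at e1
  rw [hX, hY, hV1, hV2] at e2
  constructor
  · linear_combination e2
  · linear_combination -e1

/-- The symmetry of the monodromy. -/
lemma sym {B A r : ℂ} {X1 Y1 X2 Y2 : ℝ → ℂ} (h1 : IsLin B A r X1 Y1)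
    (h2 : IsLin B A r X2 Y2) :
    X1 0 * X2 (2 * Real.pi) + Y1 0 * Y2 (2 * Real.pi)
      = X1 (2 * Real.pi) * X2 0 + Y1 (2 * Real.pi) * Y2 0 := by
  have key := const_of (fun τ => X1 τ * X2 (2 * Real.pi - τ) + Y1 τ * Y2 (2 * Real.pi - τ))
    (fun τ => ?_) 0 (2 * Real.pi)
  · simpa using key
  have hs : HasDerivAt (fun τ : ℝ => 2 * Real.pi - τ) (-1) τ := by
    simpa using (hasDerivAt_id τ).const_sub (2 * Real.pi)
  have hX2 := (h2.1 (2 * Real.pi - τ)).scomp τ hs
  have hY2 := (h2.2 (2 * Real.pi - τ)).scomp τ hs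
  have h := ((h1.1 τ).mul hX2).add ((h1.2 τ).mul hY2)
  have hc : Complex.cos ((2 * Real.pi - τ : ℝ) : ℂ) = Complex.cos (τ : ℂ) := by
    rw [← Complex.ofReal_cos, ← Complex.ofReal_cos, Real.cos_two_pi_sub]
  refine h.congr_deriv ?_
  simp only [Function.comp, hc, Complex.real_smul, Complex.ofReal_neg, Complex.ofReal_one]
  ring

/-- The phase solution gives the direction of the linear solution. -/
lemma phase_lin {B A r : ℝ} {φ : ℝ → ℝ} (hφ : IsPhase B A r φ) {X Y : ℝ → ℂ}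
    (h : IsLin B A r X Y) (h0 : X 0 = Complex.exp (φ 0 * I) * Y 0) (t : ℝ) :
    X t = Complex.exp (φ t * I) * Y t := by
  set c : ℝ → ℂ := fun τ => I * r * (B + A * Complex.cos τ) - r * Complex.exp (φ τ * I) with hc
  set W : ℝ → ℂ := fun τ => X τ - Complex.exp (φ τ * I) * Y τ with hW
  have hWd : ∀ τ, HasDerivAt W (c τ * W τ) τ := by
    intro τ
    have hE : HasDerivAt (fun τ : ℝ => Complex.exp (φ τ * I))
        (Complex.exp (φ τ * I) * ((2 * r * (-Real.sin (φ τ) + B + A * Real.cos τ) : ℝ) * I)) τ :=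
      ((hφ τ).ofReal_comp.mul_const I).cexp
    have hh := (h.1 τ).sub (hE.mul (h.2 τ))
    refine hh.congr_deriv ?_
    have hEne : Complex.exp (φ τ * I) ≠ 0 := Complex.exp_ne_zero _
    have hsin : (Real.sin (φ τ) : ℂ) * I * 2 =
        Complex.exp (φ τ * I) - (Complex.exp (φ τ * I))⁻¹ := by
      rw [← Complex.exp_neg, Complex.ofReal_sin, Complex.sin]
      have : -(↑(φ τ) * I) = -↑(φ τ) * I := by ring
      rw [this]
      linear_combination (Complex.exp (-↑(φ τ) * I) - Complex.exp (↑(φ τ) * I)) * Complex.I_sq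
    have hEE : Complex.exp (φ τ * I) * (Complex.exp (φ τ * I))⁻¹ = 1 := mul_inv_cancel₀ hEne
    simp only [hc, hW]
    push_cast
    push_cast at hsin
    set E := Complex.exp (φ τ * I) with hEdef
    linear_combination ((r : ℂ) * E * Y τ) * hsin - (r : ℂ) * Y τ * hEE
  have hK : ∀ τ, LipschitzOnWith (Real.toNNReal (|r| * (|B| + |A|) + |r|)) (fun w : ℂ => c τ * w)
      univ := by
    intro τ
    rw [lipschitzOnWith_univ]
    refine LipschitzWith.of_dist_le_mul (fun x y => ?_)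
    rw [dist_eq_norm, dist_eq_norm, ← mul_sub, norm_mul, Real.coe_toNNReal _ (by positivity)]
    refine mul_le_mul_of_nonneg_right ?_ (norm_nonneg _)
    refine (norm_sub_le _ _).trans ?_
    have h1 : ‖I * (r : ℂ) * ((B : ℂ) + A * Complex.cos τ)‖ ≤ |r| * (|B| + |A|) := by
      rw [norm_mul, norm_mul, Complex.norm_I, one_mul, Complex.norm_real, Real.norm_eq_abs]
      refine mul_le_mul_of_nonneg_left ?_ (abs_nonneg r)
      refine (norm_add_le _ _).trans ?_
      rw [norm_mul, Complex.norm_real, Complex.norm_real, Real.norm_eq_abs, Real.norm_eq_abs,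
        ← Complex.ofReal_cos, Complex.norm_real, Real.norm_eq_abs]
      have := mul_le_mul_of_nonneg_left (Real.abs_cos_le_one τ) (abs_nonneg A)
      linarith
    have h2 : ‖(r : ℂ) * Complex.exp (φ τ * I)‖ = |r| := by
      rw [norm_mul, Complex.norm_exp_ofReal_mul_I, mul_one, Complex.norm_real, Real.norm_eq_abs]
    rw [h2]
    linarith
  have hzero : W = fun _ => 0 := by
    refine ODE_solution_unique_univ (v := fun τ w => c τ * w) (s := fun _ => univ) (t₀ := 0)
      hK (fun τ => ⟨hWd τ, mem_univ _⟩) (fun τ => ⟨?_, mem_univ _⟩) ?_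
    · simpa using hasDerivAt_const τ (0 : ℂ)
    · simp [hW, h0]
  have := congrFun hzero t
  simp only [hW] at this
  exact sub_eq_zero.mp this

/-- If the direction `e = ± i` is fixed and another direction is fixed, then the monodromy is
scalar, and all phase solutions return modulo `2π`. -/
lemma all_fixed (hex : S_EX) {B A r θ : ℝ} (hr : 0 < r)
    (hθ : θ = Real.pi / 2 ∨ θ = -(Real.pi / 2)) {φ ψ : ℝ → ℝ} {s m : ℤ}
    (hφ : IsPhase B A r φ) (hφ0 : φ 0 = θ) (hφ1 : φ (2 * Real.pi) = θ + 2 * Real.pi * s)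
    (hψ : IsPhase B A r ψ) (hψ1 : ψ (2 * Real.pi) = ψ 0 + 2 * Real.pi * m)
    (hne : Complex.exp (ψ 0 * I) ≠ Complex.exp (θ * I))
    {χ : ℝ → ℝ} (hχ : IsPhase B A r χ) :
    ∃ n : ℤ, χ (2 * Real.pi) = χ 0 + 2 * Real.pi * n := by
  have hrc : (r : ℂ) ≠ 0 := by exact_mod_cast hr.ne'
  have hper : ∀ (x : ℝ) (k : ℤ),
      Complex.exp (((x + 2 * Real.pi * k : ℝ) : ℂ) * I) = Complex.exp (x * I) := by
    intro x k
    rw [Complex.exp_eq_exp_iff_exists_int]
    exact ⟨k, by push_cast; ring⟩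
  set e := Complex.exp (θ * I) with he
  have he2 : e ^ 2 = -1 := by
    rcases hθ with h | h
    · rw [he, h]
      push_cast
      rw [Complex.exp_pi_div_two_mul_I]
      exact Complex.I_sq
    · rw [he, h]
      push_cast
      rw [neg_mul, Complex.exp_neg, Complex.exp_pi_div_two_mul_I]
      rw [Complex.inv_I, neg_sq, Complex.I_sq]
  obtain ⟨X1, Y1, hl1, hX1, hY1⟩ := hex B A r hrc 0 e 1
  obtain ⟨X2, Y2, hl2, hX2, hY2⟩ := hex B A r hrc 0 (Complex.exp (ψ 0 * I)) 1
  obtain ⟨X3, Y3, hl3, hX3, hY3⟩ := hex B A r hrc 0 (Complex.exp (χ 0 * I)) 1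
  have k1 := phase_lin hφ hl1 (by rw [hX1, hY1, hφ0, mul_one]) (2 * Real.pi)
  have k2 := phase_lin hψ hl2 (by rw [hX2, hY2, mul_one]) (2 * Real.pi)
  have k3 := phase_lin hχ hl3 (by rw [hX3, hY3, mul_one]) (2 * Real.pi)
  rw [hφ1, hper] at k1
  rw [hψ1, hper] at k2
  set w := Complex.exp (ψ 0 * I) with hw
  set v := Complex.exp (χ 0 * I) with hv
  have hsym := sym hl1 hl2
  rw [hX1, hY1, hX2, hY2, k1, k2] at hsym
  have hkk : Y2 (2 * Real.pi) = Y1 (2 * Real.pi) := by
    have h1 : (Y2 (2 * Real.pi) - Y1 (2 * Real.pi)) * (e * (w - e)) = 0 := by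
      linear_combination hsym - (Y2 (2 * Real.pi) - Y1 (2 * Real.pi)) * he2
    have h2 : e * (w - e) ≠ 0 := mul_ne_zero (Complex.exp_ne_zero _) (sub_ne_zero.mpr hne)
    exact sub_eq_zero.mp ((mul_eq_zero.mp h1).resolve_right h2)
  -- the third solution as a combination
  have hwe : w - e ≠ 0 := sub_ne_zero.mpr hne
  set α : ℂ := (w - v) / (w - e) with hα
  set β : ℂ := (v - e) / (w - e) with hβ
  have hαβ : α + β = 1 := by
    rw [hα, hβ]
    field_simp
    ring
  have hαβ2 : α * e + β * w = v := by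
    rw [hα, hβ]
    field_simp
    ring
  have hlc : IsLin B A r (fun t => X3 t - (α * X1 t + β * X2 t))
      (fun t => Y3 t - (α * Y1 t + β * Y2 t)) := by
    constructor
    · intro τ
      have := (hl3.1 τ).sub (((hl1.1 τ).const_mul α).add ((hl2.1 τ).const_mul β))
      refine this.congr_deriv ?_
      ring
    · intro τ
      have := (hl3.2 τ).sub (((hl1.2 τ).const_mul α).add ((hl2.2 τ).const_mul β))
      refine this.congr_deriv ?_
      ring
  have hz := lin_zero hex hrc hlc (τ₀ := 0)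
    (by rw [hX3, hX1, hX2, hαβ2, sub_self]) (by rw [hY3, hY1, hY2, mul_one, mul_one, hαβ, sub_self])
    (2 * Real.pi)
  have hx3 : X3 (2 * Real.pi) = v * Y1 (2 * Real.pi) := by
    have := hz.1
    rw [k1, k2, hkk] at this
    linear_combination this + Y1 (2 * Real.pi) * hαβ2
  have hy3 : Y3 (2 * Real.pi) = Y1 (2 * Real.pi) := by
    have := hz.2
    rw [hkk] at this
    linear_combination this + Y1 (2 * Real.pi) * hαβ
  have hk0 : Y1 (2 * Real.pi) ≠ 0 := by
    intro h0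
    have := (lin_zero hex hrc hl3 (τ₀ := 2 * Real.pi) (by rw [hx3, h0, mul_zero])
      (by rw [hy3, h0]) 0).2
    rw [hY3] at this
    exact one_ne_zero this
  rw [hx3, hy3] at k3
  have hvv : v = Complex.exp (χ (2 * Real.pi) * I) := mul_right_cancel₀ hk0 k3
  rw [hv, Complex.exp_eq_exp_iff_exists_int] at hvv
  obtain ⟨n, hn⟩ := hvv
  refine ⟨-n, ?_⟩
  have hI : (I : ℂ) ≠ 0 := Complex.I_ne_zero
  have h5 : ((χ 0 : ℝ) : ℂ) = ((χ (2 * Real.pi) + 2 * Real.pi * n : ℝ) : ℂ) := by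
    apply mul_right_cancel₀ hI
    push_cast
    rw [hn]
    ring
  have h6 : χ 0 = χ (2 * Real.pi) + 2 * Real.pi * n := by exact_mod_cast h5
  push_cast
  linarith

/-- Shifting a phase solution by a multiple of `2π`. -/
lemma phase_shift {B A r : ℝ} {φ : ℝ → ℝ} (hφ : IsPhase B A r φ) (n : ℤ) :
    IsPhase B A r (fun t => φ t + n * (2 * Real.pi)) := by
  intro τ
  have := (hφ τ).add_const (n * (2 * Real.pi))
  simp only [Real.sin_add_int_mul_two_pi]
  exact this

end SGNx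

open SGNx in
theorem t_SGN (hex : S_EX) (hp : S_PEX) : S_SGN := by
  intro B A r θ s φ hr hθ hφ hφ0 hφ1
  obtain ⟨hpe, hpu, hpl⟩ := hp
  choose F hF hF0 using (fun x => hpe B A r x hr)
  have hFu : ∀ ψ : ℝ → ℝ, IsPhase B A r ψ → F (ψ 0) = ψ := fun ψ hψ =>
    hpu B A r _ _ 0 hr (hF _) hψ (hF0 _)
  set D : ℝ → ℝ := fun x => F x (2 * Real.pi) - x - 2 * Real.pi * s with hD
  have hDc : Continuous D := by
    have h1 : LipschitzWith (Real.toNNReal (Real.exp (4 * Real.pi * r)))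
        (fun x => F x (2 * Real.pi)) := by
      refine LipschitzWith.of_dist_le_mul (fun x y => ?_)
      rw [Real.coe_toNNReal _ (Real.exp_pos _).le, Real.dist_eq, Real.dist_eq]
      have := hpl B A r (F x) (F y) hr (hF x) (hF y)
      rwa [hF0, hF0] at this
    exact (h1.continuous.sub continuous_id).sub continuous_const
  have hDθ : D θ = 0 := by
    have h1 : F θ = φ := by rw [← hφ0]; exact hFu φ hφ
    simp only [hD]
    rw [h1, hφ1]
    ring
  have hDper : ∀ (x : ℝ) (n : ℤ), D (x + n * (2 * Real.pi)) = D x := by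
    intro x n
    have h1 : F (x + n * (2 * Real.pi)) = fun t => F x t + n * (2 * Real.pi) := by
      have := hFu _ (phase_shift (hF x) n)
      simp only [hF0] at this
      exact this
    simp only [hD]
    rw [h1]
    ring
  by_contra hcon
  push Not at hcon
  obtain ⟨⟨ψ1, hψ1, hlt⟩, ⟨ψ2, hψ2, hgt⟩⟩ := hcon
  have hD1 : D (ψ1 0) < 0 := by
    simp only [hD]
    rw [hFu ψ1 hψ1]
    linarith
  have hD2 : 0 < D (ψ2 0) := by
    simp only [hD]
    rw [hFu ψ2 hψ2]
    linarith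
  have h2pi : 0 < 2 * Real.pi := by positivity
  -- reduction to the fundamental interval
  have hred : ∀ x : ℝ, D x ≠ 0 → ∃ y, y ∈ Ioo θ (θ + 2 * Real.pi) ∧ D y = D x := by
    intro x hx
    refine ⟨toIcoMod h2pi θ x, ?_, ?_⟩
    · have hm := toIcoMod_mem_Ico h2pi θ x
      refine ⟨lt_of_le_of_ne hm.1 ?_, hm.2⟩
      intro heq
      apply hx
      have h3 : D (toIcoMod h2pi θ x) = D x := by
        have h4 := toIcoMod_add_toIcoDiv_zsmul h2pi θ x
        rw [zsmul_eq_mul] at h4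
        rw [← hDper (toIcoMod h2pi θ x) (toIcoDiv h2pi θ x), h4]
      rw [← h3, ← heq, hDθ]
    · have h4 := toIcoMod_add_toIcoDiv_zsmul h2pi θ x
      rw [zsmul_eq_mul] at h4
      rw [← hDper (toIcoMod h2pi θ x) (toIcoDiv h2pi θ x), h4]
  obtain ⟨y1, hy1, hDy1⟩ := hred _ hD1.ne
  obtain ⟨y2, hy2, hDy2⟩ := hred _ hD2.ne'
  have hivt := intermediate_value_uIcc (f := D) (a := y1) (b := y2) hDc.continuousOn
  have h0mem : (0 : ℝ) ∈ uIcc (D y1) (D y2) := by
    rw [hDy1, hDy2, uIcc_of_le (by linarith)]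
    exact ⟨hD1.le, hD2.le⟩
  obtain ⟨x3, hx3, hDx3⟩ := hivt h0mem
  have hx3' : x3 ∈ Ioo θ (θ + 2 * Real.pi) := by
    have : uIcc y1 y2 ⊆ Ioo θ (θ + 2 * Real.pi) :=
      (ordConnected_Ioo (a := θ) (b := θ + 2 * Real.pi)).uIcc_subset hy1 hy2
    exact this hx3
  have hne : Complex.exp (F x3 0 * I) ≠ Complex.exp (θ * I) := by
    rw [hF0]
    intro heq
    rw [Complex.exp_eq_exp_iff_exists_int] at heq
    obtain ⟨n, hn⟩ := heq
    have h5 : ((x3 : ℝ) : ℂ) = ((θ + 2 * Real.pi * n : ℝ) : ℂ) := by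
      apply mul_right_cancel₀ Complex.I_ne_zero
      push_cast
      rw [hn]
      ring
    have h6 : x3 = θ + 2 * Real.pi * n := by exact_mod_cast h5
    have h7 : (0 : ℝ) < n := by
      have : 0 < 2 * Real.pi * n := by linarith [hx3'.1]
      exact (mul_pos_iff_of_pos_left h2pi).mp this
    have h8 : (n : ℝ) < 1 := by
      have : 2 * Real.pi * n < 2 * Real.pi * 1 := by linarith [hx3'.2]
      exact lt_of_mul_lt_mul_left this h2pi.le
    have h9 : (0 : ℤ) < n := by exact_mod_cast h7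
    have h10 : n < (1 : ℤ) := by exact_mod_cast h8
    omega
  have hall : ∀ x, ∃ n : ℤ, D x = 2 * Real.pi * n := by
    intro x
    obtain ⟨n, hn⟩ := all_fixed hex hr hθ hφ hφ0 hφ1 (hF x3)
      (show F x3 (2 * Real.pi) = F x3 0 + 2 * Real.pi * s by
        simp only [hD] at hDx3
        rw [hF0]
        linarith) hne (hF x)
    refine ⟨n - s, ?_⟩
    simp only [hD]
    rw [hn, hF0]
    push_cast
    ring
  -- the value `-π` is attained
  obtain ⟨n1, hn1⟩ := hall (ψ1 0)
  have hn1' : (n1 : ℝ) ≤ -1 := by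
    have h1 : 2 * Real.pi * (n1 : ℝ) < 0 := by rw [← hn1]; exact hD1
    have h2 : (n1 : ℝ) < 0 := by
      by_contra h
      push Not at h
      have : 0 ≤ 2 * Real.pi * (n1 : ℝ) := by positivity
      linarith
    have h3 : n1 < (0 : ℤ) := by exact_mod_cast h2
    have h4 : n1 ≤ (-1 : ℤ) := by omega
    exact_mod_cast h4
  have hivt2 := intermediate_value_uIcc (f := D) (a := ψ1 0) (b := θ) hDc.continuousOn
  have hmem : (-Real.pi) ∈ uIcc (D (ψ1 0)) (D θ) := by
    rw [hDθ, uIcc_of_le hD1.le]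
    constructor
    · rw [hn1]
      nlinarith [Real.pi_pos]
    · linarith [Real.pi_pos]
  obtain ⟨x4, _, hx4⟩ := hivt2 hmem
  obtain ⟨n4, hn4⟩ := hall x4
  rw [hx4] at hn4
  have h11 : (-1 : ℝ) = 2 * n4 := by
    have hpi := Real.pi_pos
    have : Real.pi * (-1) = Real.pi * (2 * n4) := by linarith
    exact mul_left_cancel₀ hpi.ne' this
  have h12 : (-1 : ℤ) = 2 * n4 := by exact_mod_cast h11
  omega

end Pool.Agent.N261.JS
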